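import Mathlib

/-!
# Minkowski's theorem on linear forms
-/

namespace Pool.Agent.H89.CSD

open MeasureTheory Matrix

/-- Minkowski's theorem on linear forms. -/
theorem minkowski_forms {d : ℕ} (M : Matrix (Fin d) (Fin d) ℝ) (hM : M.det ≠ 0) (τ : Fin d → ℝ)
    (hτ : ∀ i, 0 < τ i) (h : |M.det| < ∏ i, τ i) :
    ∃ x : Fin d → ℤ, x ≠ 0 ∧ ∀ i, |∑ j, M i j * (x j : ℝ)| ≤ τ i := by
  classical
  set b : Module.Basis (Fin d) ℝ (Fin d → ℝ) := Pi.basisFun ℝ (Fin d) with hb
  set f : (Fin d → ℝ) →ₗ[ℝ] (Fin d → ℝ) := Matrix.toLin' M with hf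
  have hfdet : LinearMap.det f = M.det := LinearMap.det_toLin' M
  set s : Set (Fin d → ℝ) := f ⁻¹' (Set.Icc (-τ) τ) with hs
  have hvol : volume s = ENNReal.ofReal (|M.det|⁻¹ * ∏ i, (2 * τ i)) := by
    rw [hs, Measure.addHaar_preimage_linearMap volume (by rwa [hfdet]), hfdet, Real.volume_Icc_pi,
      ENNReal.ofReal_mul (by positivity), abs_inv]
    congr 1
    rw [ENNReal.ofReal_prod_of_nonneg (fun i _ => by have := hτ i; positivity)]
    apply Finset.prod_congr rfl
    intro i _
    congr 1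
    simp only [Pi.neg_apply]
    ring
  have hF : volume (ZSpan.fundamentalDomain b) = 1 := by
    rw [hb, ZSpan.volume_fundamentalDomain]
    have : Matrix.of (⇑(Pi.basisFun ℝ (Fin d))) = 1 := by
      ext i j
      simp [Matrix.one_apply, Pi.single_apply, eq_comm]
    rw [this]
    simp
  have hlt : volume (ZSpan.fundamentalDomain b) * 2 ^ Module.finrank ℝ (Fin d → ℝ) < volume s := by
    rw [hF, hvol, one_mul, Module.finrank_fin_fun, Finset.prod_mul_distrib]
    have h2 : (2 : ENNReal) ^ d = ENNReal.ofReal ((2 : ℝ) ^ d) := by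
      rw [ENNReal.ofReal_pow (by norm_num)]
      norm_num
    rw [h2]
    have hpos : 0 < |M.det| := abs_pos.2 hM
    have h3 : 0 < ∏ i, τ i := Finset.prod_pos fun i _ => hτ i
    rw [ENNReal.ofReal_lt_ofReal_iff (by simp only [Finset.prod_const]; positivity)]
    simp only [Finset.prod_const, Finset.card_univ, Fintype.card_fin]
    rw [← mul_assoc, mul_comm (|M.det|⁻¹) _, mul_assoc]
    have : 1 < |M.det|⁻¹ * ∏ i, τ i := by
      rw [inv_mul_eq_div, one_lt_div hpos]
      exact h
    have h4 : (0 : ℝ) < 2 ^ d := by positivity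
    nlinarith
  haveI : Countable (Submodule.span ℤ (Set.range b)).toAddSubgroup := by
    change Countable (Submodule.span ℤ (Set.range b))
    infer_instance
  obtain ⟨x, hx0, hx⟩ := exists_ne_zero_mem_lattice_of_measure_mul_two_pow_lt_measure
    (L := (Submodule.span ℤ (Set.range b)).toAddSubgroup)
    (ZSpan.isAddFundamentalDomain b volume) (s := s)
    (fun x hx => by
      simp only [hs, Set.mem_preimage, map_neg, Set.mem_Icc, neg_le_neg_iff] at hx ⊢
      exact ⟨hx.2, by simpa using neg_le_neg hx.1⟩)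
    ((convex_Icc _ _).linear_preimage f) hlt
  have hxm : (x : Fin d → ℝ) ∈ Submodule.span ℤ (Set.range b) := x.2
  rw [Module.Basis.mem_span_iff_repr_mem] at hxm
  choose z hz using hxm
  have hz' : ∀ i, (x : Fin d → ℝ) i = (z i : ℝ) := by
    intro i
    have := hz i
    simp only [hb, Pi.basisFun_repr] at this
    rw [← this]
    simp
  refine ⟨z, ?_, ?_⟩
  · rintro rfl
    apply hx0
    ext i
    simp [hz' i]
  · intro i
    have h1 := hx
    simp only [hs, Set.mem_preimage, Set.mem_Icc, Pi.le_def] at h1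
    have h2 : f (x : Fin d → ℝ) i = ∑ j, M i j * (z j : ℝ) := by
      rw [hf, Matrix.toLin'_apply]
      simp only [Matrix.mulVec, dotProduct, hz']
    rw [abs_le, ← h2]
    exact ⟨h1.1 i, h1.2 i⟩

end Pool.Agent.H89.CSD
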