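import Pool.Agent.H89.CSD.Mahler

/-!
# Magnification of a small off-diagonal displacement
-/

namespace Pool.Agent.H89.CSD

open Matrix Filter Topology

variable {d : ℕ}

theorem continuous_P (x : Fin d → ℝ) : Continuous (fun g : Matrix (Fin d) (Fin d) ℝ => P g x) := by
  unfold P
  refine continuous_finsetProd _ fun i _ => continuous_finsetSum _ fun j _ => ?_
  exact (continuous_id.matrix_elem i j).mul continuous_const

theorem isClosed_pos (c : ℝ) : IsClosed {g : Matrix (Fin d) (Fin d) ℝ | Pos c g} := by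
  have : {g : Matrix (Fin d) (Fin d) ℝ | Pos c g} =
      ⋂ (x : Fin d → ℤ) (_ : x ≠ 0), {g | c ≤ |P g (ic x)|} := by
    ext g
    simp [Pos]
  rw [this]
  refine isClosed_iInter fun x => isClosed_iInter fun _ => ?_
  exact isClosed_le continuous_const (continuous_P _).abs

theorem Pos.of_tendsto {c : ℝ} {z : ℕ → Matrix (Fin d) (Fin d) ℝ} {w : Matrix (Fin d) (Fin d) ℝ}
    (hz : Tendsto z atTop (𝓝 w)) (h : ∀ n, Pos c (z n)) : Pos c w :=
  (isClosed_pos c).mem_of_tendsto hz (Eventually.of_forall h)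

theorem continuous_det' : Continuous (fun g : Matrix (Fin d) (Fin d) ℝ => g.det) :=
  Continuous.matrix_det continuous_id

instance : FirstCountableTopology (Matrix (Fin d) (Fin d) ℝ) :=
  inferInstanceAs (FirstCountableTopology (Fin d → Fin d → ℝ))

/-- The compact set of matrices with bounded entries and bounded determinant. -/
def KK (d : ℕ) (R δ D : ℝ) : Set (Matrix (Fin d) (Fin d) ℝ) :=
  {M | (∀ i j, |M i j| ≤ R) ∧ δ ≤ |M.det| ∧ |M.det| ≤ D}

theorem isCompact_KK (R δ D : ℝ) : IsCompact (KK d R δ D) := by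
  have h1 : IsCompact {M : Matrix (Fin d) (Fin d) ℝ | ∀ i j, |M i j| ≤ R} := by
    have : {M : Matrix (Fin d) (Fin d) ℝ | ∀ i j, |M i j| ≤ R} =
        Set.pi Set.univ fun _ : Fin d => Set.pi Set.univ fun _ : Fin d => Set.Icc (-R) R := by
      ext M
      constructor
      · intro h i _ j _
        exact abs_le.1 (h i j)
      · intro h i j
        exact abs_le.2 (h i (Set.mem_univ i) j (Set.mem_univ j))
    rw [this]
    exact isCompact_univ_pi fun i => isCompact_univ_pi fun j => isCompact_Icc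
  have h2 : IsClosed {M : Matrix (Fin d) (Fin d) ℝ | δ ≤ |M.det| ∧ |M.det| ≤ D} :=
    (isClosed_le continuous_const continuous_det'.abs).inter
      (isClosed_le continuous_det'.abs continuous_const)
  exact h1.inter_right h2

theorem exists_max_off {E : Matrix (Fin d) (Fin d) ℝ} (h : ∃ i j, i ≠ j ∧ E i j ≠ 0) :
    ∃ k l, k ≠ l ∧ E k l ≠ 0 ∧ ∀ i j, i ≠ j → |E i j| ≤ |E k l| := by
  obtain ⟨i0, j0, hij, h0⟩ := h
  have : Nonempty {p : Fin d × Fin d // p.1 ≠ p.2} := ⟨⟨(i0, j0), hij⟩⟩
  obtain ⟨⟨⟨k, l⟩, hkl⟩, hmax⟩ := Finite.exists_max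
    (fun p : {p : Fin d × Fin d // p.1 ≠ p.2} => |E p.1.1 p.1.2|)
  refine ⟨k, l, hkl, ?_, fun i j h => hmax ⟨(i, j), h⟩⟩
  intro h1
  have := hmax ⟨(i0, j0), hij⟩
  simp only [h1, abs_zero] at this
  exact h0 (abs_eq_zero.1 (le_antisymm this (abs_nonneg _)))

theorem magnify {c δ D : ℝ} (hc : 0 < c) (hδ : 0 < δ) (hD : 0 ≤ D)
    (y E : ℕ → Matrix (Fin d) (Fin d) ℝ)
    (hy1 : ∀ n, δ ≤ |(y n).det|) (hy2 : ∀ n, |(y n).det| ≤ D) (hp1 : ∀ n, Pos c (y n))
    (hp2 : ∀ n, Pos c ((1 + E n) * y n)) (hE : Tendsto E atTop (𝓝 0))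
    (hoff : ∀ n, ∃ i j, i ≠ j ∧ E n i j ≠ 0) :
    ∃ (k l : Fin d) (s : ℝ) (w : Matrix (Fin d) (Fin d) ℝ) (φ : ℕ → ℕ) (a : ℕ → Fin d → ℝ)
      (U : ℕ → (Matrix (Fin d) (Fin d) ℤ)ˣ), k ≠ l ∧ |s| = 1 ∧ δ ≤ |w.det| ∧ |w.det| ≤ D ∧
      Pos c w ∧ Pos c ((1 + Matrix.single k l s) * w) ∧ StrictMono φ ∧ (∀ n i, 0 < a n i) ∧
      (∀ n, ∏ i, a n i = 1) ∧
      Tendsto (fun n => diagonal (a n) * y (φ n) * im (U n : Matrix (Fin d) (Fin d) ℤ)) atTop
        (𝓝 w) := by
  classical
  obtain ⟨R, hR0, hR⟩ := mahler d (min c 1) δ D (lt_min hc one_pos) hδ hD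
  choose k l hkl hne hmax using fun n => exists_max_off (hoff n)
  set r : ℕ → ℝ := fun n => Real.sqrt |E n (k n) (l n)| with hr
  have hr0 : ∀ n, 0 < r n := fun n => Real.sqrt_pos.2 (abs_pos.2 (hne n))
  have hrsq : ∀ n, r n * r n = |E n (k n) (l n)| := fun n => Real.mul_self_sqrt (abs_nonneg _)
  set a : ℕ → Fin d → ℝ := fun n i => if i = k n then (r n)⁻¹ else if i = l n then r n else 1
    with ha
  have hak : ∀ n, a n (k n) = (r n)⁻¹ := fun n => by simp [ha]
  have hal : ∀ n, a n (l n) = r n := fun n => by simp [ha, (hkl n).symm]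
  have hapos : ∀ n i, 0 < a n i := by
    intro n i
    simp only [ha]
    split_ifs
    · exact inv_pos.2 (hr0 n)
    · exact hr0 n
    · exact one_pos
  have hprod : ∀ n, ∏ i, a n i = 1 := by
    intro n
    rw [← Finset.mul_prod_erase _ _ (Finset.mem_univ (k n)),
      ← Finset.mul_prod_erase _ _ (Finset.mem_erase.2 ⟨(hkl n).symm, Finset.mem_univ (l n)⟩),
      hak, hal, Finset.prod_eq_one, mul_one, inv_mul_cancel₀ (hr0 n).ne']
    intro i hi
    simp only [Finset.mem_erase] at hi
    simp [ha, hi.1, hi.2.1]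
  have hzdet : ∀ n, |(diagonal (a n) * y n).det| = |(y n).det| := by
    intro n
    rw [Matrix.det_mul, Matrix.det_diagonal, hprod, one_mul]
  have hzpos : ∀ n, Pos c (diagonal (a n) * y n) := fun n =>
    (hp1 n).diag_mul (by rw [hprod, abs_one])
  choose U hU using fun n => hR (diagonal (a n) * y n) (by rw [hzdet]; exact hy1 n)
    (by rw [hzdet]; exact hy2 n) (fun x hx => (hzpos n).short hx)
  set z : ℕ → Matrix (Fin d) (Fin d) ℝ := fun n =>
    diagonal (a n) * y n * im (U n : Matrix (Fin d) (Fin d) ℤ) with hz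
  have hzK : ∀ n, z n ∈ KK d R δ D := by
    intro n
    refine ⟨hU n, ?_, ?_⟩
    · rw [hz]
      simp only [Matrix.det_mul (diagonal (a n) * y n), abs_mul _ (im _).det, abs_det_im_unit,
        mul_one, hzdet]
      exact hy1 n
    · rw [hz]
      simp only [Matrix.det_mul (diagonal (a n) * y n), abs_mul _ (im _).det, abs_det_im_unit,
        mul_one, hzdet]
      exact hy2 n
  set s : ℕ → ℝ := fun n => E n (k n) (l n) / |E n (k n) (l n)| with hs
  have hs1 : ∀ n, |s n| = 1 := by
    intro n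
    rw [hs, abs_div, abs_abs, div_self (abs_ne_zero.2 (hne n))]
  -- the conjugated displacement
  set E' : ℕ → Matrix (Fin d) (Fin d) ℝ := fun n =>
    diagonal (a n) * E n * diagonal (fun i => (a n i)⁻¹) with hE'
  have hE'ij : ∀ n i j, E' n i j = a n i * E n i j * (a n j)⁻¹ := by
    intro n i j
    simp only [hE', Matrix.mul_diagonal, Matrix.diagonal_mul]
  have hE'mul : ∀ n, (1 + E' n) * diagonal (a n) = diagonal (a n) * (1 + E n) := by
    intro n
    have h1 : diagonal (fun i => (a n i)⁻¹) * diagonal (a n) = 1 := by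
      rw [Matrix.diagonal_mul_diagonal, ← Matrix.diagonal_one]
      congr 1
      ext i
      exact inv_mul_cancel₀ (hapos n i).ne'
    rw [Matrix.add_mul, Matrix.mul_add, Matrix.one_mul, Matrix.mul_one, hE', Matrix.mul_assoc,
      h1, Matrix.mul_one]
  have hpz : ∀ n, Pos c ((1 + E' n) * z n) := by
    intro n
    have h1 : (1 + E' n) * z n =
        diagonal (a n) * ((1 + E n) * y n) * im (U n : Matrix (Fin d) (Fin d) ℤ) := by
      rw [hz]
      simp only
      rw [← Matrix.mul_assoc, ← Matrix.mul_assoc, hE'mul, Matrix.mul_assoc (diagonal (a n))]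
    rw [h1]
    exact ((hp2 n).diag_mul (by rw [hprod, abs_one])).mul_im (det_unit_ne _)
  have hpz1 : ∀ n, Pos c (z n) := fun n => (hzpos n).mul_im (det_unit_ne _)
  -- extraction
  have hcomp : IsCompact ((Set.univ : Set (Fin d × Fin d)) ×ˢ
      (Set.Icc (-1 : ℝ) 1 ×ˢ KK d R δ D)) :=
    (Set.finite_univ.isCompact).prod (isCompact_Icc.prod (isCompact_KK R δ D))
  obtain ⟨⟨⟨k0, l0⟩, s0, w⟩, -, φ, hφ, hlim⟩ := hcomp.tendsto_subseq
    (x := fun n => ((k n, l n), s n, z n))
    (fun n => ⟨Set.mem_univ _, abs_le.1 (hs1 n).le, hzK n⟩)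
  have hlim1 : Tendsto (fun n => (k (φ n), l (φ n))) atTop (𝓝 (k0, l0)) :=
    (continuous_fst.tendsto _).comp hlim
  have hlim2 : Tendsto (fun n => s (φ n)) atTop (𝓝 s0) :=
    ((continuous_fst.comp continuous_snd).tendsto _).comp hlim
  have hlim3 : Tendsto (fun n => z (φ n)) atTop (𝓝 w) :=
    ((continuous_snd.comp continuous_snd).tendsto _).comp hlim
  have hev : ∀ᶠ n in atTop, k (φ n) = k0 ∧ l (φ n) = l0 := by
    rw [nhds_discrete, tendsto_pure] at hlim1
    filter_upwards [hlim1] with n hn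
    simpa using hn
  obtain ⟨N, hN⟩ := eventually_atTop.1 hev
  set ψ : ℕ → ℕ := fun n => φ (n + N) with hψ
  have hψm : StrictMono ψ := fun m n h => hφ (by omega)
  have hψk : ∀ n, k (ψ n) = k0 := fun n => (hN (n + N) (by omega)).1
  have hψl : ∀ n, l (ψ n) = l0 := fun n => (hN (n + N) (by omega)).2
  have hψs : Tendsto (fun n => s (ψ n)) atTop (𝓝 s0) := hlim2.comp (tendsto_add_atTop_nat N)
  have hψz : Tendsto (fun n => z (ψ n)) atTop (𝓝 w) := hlim3.comp (tendsto_add_atTop_nat N)
  have hEψ : ∀ i j, Tendsto (fun n => E (ψ n) i j) atTop (𝓝 0) := by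
    intro i j
    have h1 : Tendsto (fun n => E n i j) atTop (𝓝 0) :=
      ((continuous_id.matrix_elem i j).tendsto (0 : Matrix (Fin d) (Fin d) ℝ)).comp hE
    exact h1.comp hψm.tendsto_atTop
  have hkl0 : k0 ≠ l0 := by
    have := hkl (ψ 0)
    rwa [hψk, hψl] at this
  have hrψ : Tendsto (fun n => r (ψ n)) atTop (𝓝 0) := by
    have h1 : Tendsto (fun n => Real.sqrt |E (ψ n) k0 l0|) atTop (𝓝 (Real.sqrt |0|)) :=
      (Real.continuous_sqrt.comp continuous_abs).continuousAt.tendsto.comp (hEψ k0 l0)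
    rw [abs_zero, Real.sqrt_zero] at h1
    refine h1.congr fun n => ?_
    rw [hr]
    simp only [hψk, hψl]
  have hs0 : |s0| = 1 := by
    have h1 : Tendsto (fun n => |s (ψ n)|) atTop (𝓝 |s0|) := hψs.abs
    have h2 : Tendsto (fun n => |s (ψ n)|) atTop (𝓝 1) := by
      simp only [hs1]
      exact tendsto_const_nhds
    exact tendsto_nhds_unique h1 h2
  have hE'lim : Tendsto (fun n => E' (ψ n)) atTop (𝓝 (Matrix.single k0 l0 s0)) := by
    refine tendsto_pi_nhds.2 fun i => tendsto_pi_nhds.2 fun j => ?_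
    by_cases hij : i = k0 ∧ j = l0
    · obtain ⟨rfl, rfl⟩ := hij
      rw [Matrix.single_apply_same]
      refine hψs.congr fun n => ?_
      rw [hE'ij]
      have h1 := hak (ψ n)
      have h2 := hal (ψ n)
      rw [hψk] at h1
      rw [hψl] at h2
      rw [h1, h2, hs]
      simp only [hψk, hψl]
      have h3 := hrsq (ψ n)
      rw [hψk, hψl] at h3
      rw [← h3]
      have := (hr0 (ψ n)).ne'
      field_simp
    · have hz0 : (Matrix.single k0 l0 s0) i j = 0 := by
        apply Matrix.single_apply_of_ne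
        rintro ⟨h1, h2⟩
        exact hij ⟨h1.symm, h2.symm⟩
      rw [hz0]
      by_cases hd' : i = j
      · subst hd'
        refine (hEψ i i).congr fun n => ?_
        rw [hE'ij]
        have := (hapos (ψ n) i).ne'
        field_simp
      · -- off-diagonal, not the maximal position
        have hr1 : ∀ᶠ n in atTop, r (ψ n) < 1 := hrψ.eventually (gt_mem_nhds one_pos)
        refine squeeze_zero_norm' ?_ hrψ
        filter_upwards [hr1] with n hn
        rw [Real.norm_eq_abs, hE'ij, abs_mul, abs_mul, abs_of_pos (hapos _ _),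
          abs_of_pos (inv_pos.2 (hapos _ _))]
        have h1 : |E (ψ n) i j| ≤ r (ψ n) * r (ψ n) := by
          rw [hrsq]
          exact hmax _ i j hd'
        have h2 : a (ψ n) i * (a (ψ n) j)⁻¹ ≤ (r (ψ n))⁻¹ := by
          have hrp := hr0 (ψ n)
          have hri : 1 ≤ (r (ψ n))⁻¹ := (one_le_inv₀ hrp).2 hn.le
          have hrr : r (ψ n) ≤ (r (ψ n))⁻¹ := hn.le.trans hri
          simp only [ha, hψk, hψl]
          by_cases hi : i = k0
          · have hj : j ≠ l0 := fun h => hij ⟨hi, h⟩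
            have hj' : j ≠ k0 := fun h => hd' (hi.trans h.symm)
            simp [hi, hj, hj']
          · by_cases hi' : i = l0
            · by_cases hj : j = k0
              · simp only [hi', hj, if_true, if_false, hkl0.symm, inv_inv]
                nlinarith
              · by_cases hj' : j = l0
                · exact absurd (hi'.trans hj'.symm) hd'
                · simp [hi', hj, hj', hkl0.symm, hrr]
            · by_cases hj : j = k0
              · simp [hi, hi', hj, hrr]
              · by_cases hj' : j = l0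
                · simp [hi, hi', hj', hkl0.symm]
                · simp [hi, hi', hj, hj', hri]
        calc a (ψ n) i * |E (ψ n) i j| * (a (ψ n) j)⁻¹
            = |E (ψ n) i j| * (a (ψ n) i * (a (ψ n) j)⁻¹) := by ring
          _ ≤ (r (ψ n) * r (ψ n)) * (r (ψ n))⁻¹ :=
              mul_le_mul h1 h2 (mul_nonneg (hapos _ _).le (inv_nonneg.2 (hapos _ _).le))
                (mul_nonneg (hr0 _).le (hr0 _).le)
          _ = r (ψ n) := by
              have := (hr0 (ψ n)).ne'
              field_simp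
  have hwK : w ∈ KK d R δ D :=
    (isCompact_KK R δ D).isClosed.mem_of_tendsto hψz (Eventually.of_forall fun n => hzK _)
  refine ⟨k0, l0, s0, w, ψ, fun n => a (ψ n), fun n => U (ψ n), hkl0, hs0, hwK.2.1, hwK.2.2,
    Pos.of_tendsto hψz fun n => hpz1 _, ?_, hψm, fun n i => hapos _ i, fun n => hprod _, hψz⟩
  have h1 : Tendsto (fun n => (1 + E' (ψ n)) * z (ψ n)) atTop
      (𝓝 ((1 + Matrix.single k0 l0 s0) * w)) :=
    (tendsto_const_nhds.add hE'lim).mul hψz
  exact Pos.of_tendsto h1 fun n => hpz _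

end Pool.Agent.H89.CSD
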