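import Pool.Agent.H89.CSD.Magnify

/-!
# Returns of the diagonal flow
-/

namespace Pool.Agent.H89.CSD

open Matrix Filter Topology

variable {d : ℕ}

/-- The rows of `g` are eigenvectors, with distinct eigenvalues, of an integer matrix. -/
def HasT (g : Matrix (Fin d) (Fin d) ℝ) : Prop :=
  ∃ (T : Matrix (Fin d) (Fin d) ℤ) (lam : Fin d → ℝ), Function.Injective lam ∧
    ∀ i, vecMul (g i) (im T) = lam i • g i

/-- Weights with sum zero. -/
noncomputable def wt (d : ℕ) (i : Fin d) : ℝ := (i : ℝ) - (∑ j : Fin d, (j : ℝ)) / d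

/-- A regular one-parameter subgroup of the diagonal matrices. -/
noncomputable def av (d : ℕ) (m : ℕ) (i : Fin d) : ℝ := Real.exp (m * wt d i)

theorem av_pos (m : ℕ) (i : Fin d) : 0 < av d m i := Real.exp_pos _

theorem prod_av (m : ℕ) : ∏ i, av d m i = 1 := by
  unfold av
  rw [← Real.exp_sum, ← Finset.mul_sum]
  rcases Nat.eq_zero_or_pos d with rfl | hd
  · simp
  have : ∑ i, wt d i = 0 := by
    unfold wt
    rw [Finset.sum_sub_distrib, Finset.sum_const, Finset.card_univ, Fintype.card_fin, nsmul_eq_mul]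
    have : (d : ℝ) ≠ 0 := by exact_mod_cast hd.ne'
    field_simp
    ring
  rw [this, mul_zero, Real.exp_zero]

theorem exists_returns {c : ℝ} (hc : 0 < c) {g : Matrix (Fin d) (Fin d) ℝ} (hg : g.det ≠ 0)
    (hp : Pos c g) : ∃ (φ : ℕ → ℕ) (U : ℕ → (Matrix (Fin d) (Fin d) ℤ)ˣ)
      (w : Matrix (Fin d) (Fin d) ℝ), StrictMono φ ∧ |w.det| = |g.det| ∧
      Tendsto (fun n => diagonal (av d (φ n)) * g * im (U n : Matrix (Fin d) (Fin d) ℤ)) atTop
        (𝓝 w) := by
  obtain ⟨R, hR0, hR⟩ := mahler d (min c 1) |g.det| |g.det| (lt_min hc one_pos) (abs_pos.2 hg)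
    (abs_nonneg _)
  have hzdet : ∀ n, |(diagonal (av d n) * g).det| = |g.det| := by
    intro n
    rw [Matrix.det_mul, Matrix.det_diagonal, prod_av, one_mul]
  have hzpos : ∀ n, Pos c (diagonal (av d n) * g) := fun n =>
    hp.diag_mul (by rw [prod_av, abs_one])
  choose U hU using fun n => hR (diagonal (av d n) * g) (by rw [hzdet]) (by rw [hzdet])
    (fun x hx => (hzpos n).short hx)
  have hzK : ∀ n, diagonal (av d n) * g * im (U n : Matrix (Fin d) (Fin d) ℤ)
      ∈ KK d R |g.det| |g.det| := by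
    intro n
    refine ⟨hU n, ?_, ?_⟩
    · rw [Matrix.det_mul (diagonal (av d n) * g), abs_mul _ (im _).det, abs_det_im_unit, mul_one,
        hzdet]
    · rw [Matrix.det_mul (diagonal (av d n) * g), abs_mul _ (im _).det, abs_det_im_unit, mul_one,
        hzdet]
  obtain ⟨w, hw, φ, hφ, hlim⟩ := (isCompact_KK R |g.det| |g.det|).tendsto_subseq hzK
  exact ⟨φ, fun n => U (φ n), w, hφ, le_antisymm hw.2.2 hw.2.1, hlim⟩

theorem eigen_of_diag {g : Matrix (Fin d) (Fin d) ℝ} {a a' e : Fin d → ℝ}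
    {U U' : (Matrix (Fin d) (Fin d) ℤ)ˣ} (ha' : ∀ i, a' i ≠ 0)
    (h : diagonal a' * g * im (U' : Matrix (Fin d) (Fin d) ℤ)
      = diagonal e * (diagonal a * g * im (U : Matrix (Fin d) (Fin d) ℤ))) (i : Fin d) :
    vecMul (g i) (im ((U' * U⁻¹ : (Matrix (Fin d) (Fin d) ℤ)ˣ) : Matrix (Fin d) (Fin d) ℤ))
      = (e i * a i / a' i) • g i := by
  have h1 : diagonal a' * (g * im ((U' * U⁻¹ : (Matrix (Fin d) (Fin d) ℤ)ˣ) :
      Matrix (Fin d) (Fin d) ℤ)) = diagonal e * (diagonal a * g) := by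
    have h2 : im (U : Matrix (Fin d) (Fin d) ℤ) * im ((U⁻¹ : (Matrix (Fin d) (Fin d) ℤ)ˣ) :
        Matrix (Fin d) (Fin d) ℤ) = 1 := by
      rw [← im_mul, Units.mul_inv, im_one]
    calc diagonal a' * (g * im ((U' * U⁻¹ : (Matrix (Fin d) (Fin d) ℤ)ˣ) :
          Matrix (Fin d) (Fin d) ℤ))
        = (diagonal a' * g * im (U' : Matrix (Fin d) (Fin d) ℤ))
          * im ((U⁻¹ : (Matrix (Fin d) (Fin d) ℤ)ˣ) : Matrix (Fin d) (Fin d) ℤ) := by
          rw [Units.val_mul, im_mul]
          simp only [Matrix.mul_assoc]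
      _ = diagonal e * (diagonal a * g) := by
          rw [h, Matrix.mul_assoc (diagonal e), Matrix.mul_assoc (diagonal a * g), h2,
            Matrix.mul_one]
  ext j
  have h3 := congrFun (congrFun h1 i) j
  rw [Matrix.diagonal_mul, Matrix.diagonal_mul, Matrix.diagonal_mul] at h3
  have h4 : vecMul (g i) (im ((U' * U⁻¹ : (Matrix (Fin d) (Fin d) ℤ)ˣ) :
      Matrix (Fin d) (Fin d) ℤ)) j = (g * im ((U' * U⁻¹ : (Matrix (Fin d) (Fin d) ℤ)ˣ) :
      Matrix (Fin d) (Fin d) ℤ)) i j := rfl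
  rw [h4, Pi.smul_apply, smul_eq_mul, div_mul_eq_mul_div, eq_div_iff (ha' i)]
  linarith

theorem hasT_of_close {g : Matrix (Fin d) (Fin d) ℝ} {m n : ℕ} (hmn : m < n) {e : Fin d → ℝ}
    (he : ∀ i, |e i - 1| ≤ 1 / 4) {U U' : (Matrix (Fin d) (Fin d) ℤ)ˣ}
    (h : diagonal (av d n) * g * im (U' : Matrix (Fin d) (Fin d) ℤ)
      = diagonal e * (diagonal (av d m) * g * im (U : Matrix (Fin d) (Fin d) ℤ))) : HasT g := by
  refine ⟨_, _, ?_, eigen_of_diag (fun i => (av_pos n i).ne') h⟩
  have he0 : ∀ i, 3 / 4 ≤ e i ∧ e i ≤ 5 / 4 := by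
    intro i
    have := abs_le.1 (he i)
    constructor <;> linarith [this.1, this.2]
  have key : ∀ i j : Fin d, i < j → e i * av d m i / av d n i ≠ e j * av d m j / av d n j := by
    intro i j hij heq
    have hlt : e j * av d m j / av d n j < e i * av d m i / av d n i := by
      have h1 : ∀ k : Fin d, av d m k / av d n k = Real.exp (-((n : ℝ) - m) * wt d k) := by
        intro k
        unfold av
        rw [← Real.exp_sub]
        congr 1
        ring
      rw [mul_div_assoc, mul_div_assoc, h1, h1]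
      have h2 : wt d j = wt d i + ((j : ℝ) - i) := by unfold wt; ring
      have h3 : (1 : ℝ) ≤ (j : ℝ) - i := by
        have : (i : ℕ) + 1 ≤ (j : ℕ) := hij
        have : ((i : ℕ) : ℝ) + 1 ≤ ((j : ℕ) : ℝ) := by exact_mod_cast this
        linarith
      have h4 : (1 : ℝ) ≤ (n : ℝ) - m := by
        have : (m : ℝ) + 1 ≤ n := by exact_mod_cast hmn
        linarith
      have h5 : Real.exp (-((n : ℝ) - m) * wt d j)
          = Real.exp (-((n : ℝ) - m) * wt d i) * Real.exp (-(((n : ℝ) - m) * ((j : ℝ) - i))) := by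
        rw [← Real.exp_add, h2]
        congr 1
        ring
      have h6 : Real.exp (-(((n : ℝ) - m) * ((j : ℝ) - i))) ≤ 1 / 2 := by
        have h7 : (1 : ℝ) ≤ ((n : ℝ) - m) * ((j : ℝ) - i) := by nlinarith
        have h8 : Real.exp (-(((n : ℝ) - m) * ((j : ℝ) - i))) ≤ Real.exp (-1) :=
          Real.exp_le_exp.2 (by linarith)
        have h9 : Real.exp (-1) ≤ 1 / 2 := by
          rw [Real.exp_neg, inv_le_comm₀ (Real.exp_pos 1) (by norm_num)]
          have := Real.add_one_le_exp (1 : ℝ)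
          linarith
        linarith
      rw [h5]
      have h10 := Real.exp_pos (-((n : ℝ) - m) * wt d i)
      have h11 := (he0 i).1
      have h12 := (he0 j).2
      have h13 := (he0 j).1
      have h14 : e j * Real.exp (-(((n : ℝ) - m) * ((j : ℝ) - i))) < e i := by
        have := Real.exp_pos (-(((n : ℝ) - m) * ((j : ℝ) - i)))
        nlinarith
      nlinarith
    exact absurd heq hlt.ne'
  intro i j hij
  by_contra hne
  rcases lt_or_gt_of_ne hne with h | h
  · exact key i j h hij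
  · exact key j i h hij.symm

theorem continuousAt_inv {w : Matrix (Fin d) (Fin d) ℝ} (hw : w.det ≠ 0) :
    ContinuousAt (fun M : Matrix (Fin d) (Fin d) ℝ => M⁻¹) w := by
  have h1 : ContinuousAt (fun M : Matrix (Fin d) (Fin d) ℝ => (M.det)⁻¹ • M.adjugate) w :=
    ((continuous_det'.continuousAt).inv₀ hw).smul
      (Continuous.matrix_adjugate continuous_id).continuousAt
  refine h1.congr ?_
  filter_upwards with M
  rw [Matrix.inv_def, Ring.inverse_eq_inv']

/-- Either the rows of `g` are eigenvectors of an integer matrix, or shears appear in the closure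
of the orbit. -/
theorem shear_of_not_hasT {c : ℝ} (hc : 0 < c) {g : Matrix (Fin d) (Fin d) ℝ} (hg : g.det ≠ 0)
    (hp : Pos c g) (hn : ¬ HasT g) :
    ∃ (k l : Fin d) (s : ℝ) (w : Matrix (Fin d) (Fin d) ℝ), k ≠ l ∧ |s| = 1 ∧
      |w.det| = |g.det| ∧ Pos c w ∧ Pos c ((1 + Matrix.single k l s) * w) := by
  obtain ⟨φ, U, w0, hφ, hw0, hlim⟩ := exists_returns hc hg hp
  set y : ℕ → Matrix (Fin d) (Fin d) ℝ := fun n =>
    diagonal (av d (φ n)) * g * im (U n : Matrix (Fin d) (Fin d) ℤ) with hy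
  have hydet : ∀ n, |(y n).det| = |g.det| := by
    intro n
    simp only [hy]
    rw [Matrix.det_mul, Matrix.det_mul, Matrix.det_diagonal, prod_av, one_mul, abs_mul,
      abs_det_im_unit, mul_one]
  have hydet0 : ∀ n, (y n).det ≠ 0 := by
    intro n h
    have := hydet n
    rw [h, abs_zero] at this
    exact hg (abs_eq_zero.1 this.symm)
  have hypos : ∀ n, Pos c (y n) := fun n =>
    (hp.diag_mul (by rw [prod_av, abs_one])).mul_im (det_unit_ne _)
  have hw0' : w0.det ≠ 0 := by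
    intro h
    rw [h, abs_zero] at hw0
    exact hg (abs_eq_zero.1 hw0.symm)
  set E : ℕ → Matrix (Fin d) (Fin d) ℝ := fun n => y (n + 1) * (y n)⁻¹ - 1 with hE
  have hEy : ∀ n, (1 + E n) * y n = y (n + 1) := by
    intro n
    simp only [hE]
    rw [add_sub_cancel, Matrix.mul_assoc, Matrix.nonsing_inv_mul _
      (isUnit_iff_ne_zero.2 (hydet0 n)), Matrix.mul_one]
  have hElim : Tendsto E atTop (𝓝 0) := by
    have h1 : Tendsto (fun n => (y n)⁻¹) atTop (𝓝 w0⁻¹) :=
      (continuousAt_inv hw0').tendsto.comp hlim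
    have h2 : Tendsto (fun n => y (n + 1)) atTop (𝓝 w0) := hlim.comp (tendsto_add_atTop_nat 1)
    have h3 := (h2.mul h1).sub (tendsto_const_nhds (x := (1 : Matrix (Fin d) (Fin d) ℝ)))
    rwa [Matrix.mul_nonsing_inv _ (isUnit_iff_ne_zero.2 hw0'), sub_self] at h3
  have hsmall : ∀ᶠ n in atTop, ∀ i : Fin d, |E n i i| ≤ 1 / 4 := by
    rw [eventually_all]
    intro i
    have h1 : Tendsto (fun n => |E n i i|) atTop (𝓝 |(0 : Matrix (Fin d) (Fin d) ℝ) i i|) :=
      (((continuous_id.matrix_elem i i).tendsto (0 : Matrix (Fin d) (Fin d) ℝ)).comp hElim).abs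
    rw [Matrix.zero_apply, abs_zero] at h1
    exact h1.eventually (ge_mem_nhds (by norm_num))
  obtain ⟨N, hN⟩ := eventually_atTop.1 hsmall
  have hoff : ∀ n, ∃ i j, i ≠ j ∧ E (n + N) i j ≠ 0 := by
    intro n
    by_contra hcon
    push Not at hcon
    apply hn
    have hdiag : 1 + E (n + N) = diagonal (fun i => 1 + E (n + N) i i) := by
      ext i j
      by_cases hij : i = j
      · subst hij
        simp
      · simp [Matrix.one_apply_ne hij, Matrix.diagonal_apply_ne _ hij, hcon i j hij]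
    have h1 := hEy (n + N)
    rw [hdiag] at h1
    refine hasT_of_close (hφ (Nat.lt_succ_self (n + N))) (e := fun i => 1 + E (n + N) i i) ?_
      (U := U (n + N)) (U' := U (n + N + 1)) h1.symm
    intro i
    have := hN (n + N) (by omega) i
    rwa [add_sub_cancel_left]
  obtain ⟨k, l, s, w, -, -, -, hkl, hs, hw1, hw2, hw3, hw4, -⟩ := magnify hc (abs_pos.2 hg)
    (abs_nonneg g.det) (fun n => y (n + N)) (fun n => E (n + N)) (fun n => (hydet _).ge)
    (fun n => (hydet _).le) (fun n => hypos _)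
    (fun n => by rw [hEy]; exact hypos _) (hElim.comp (tendsto_add_atTop_nat N)) hoff
  exact ⟨k, l, s, w, hkl, hs, le_antisymm hw2 hw1, hw3, hw4⟩

end Pool.Agent.H89.CSD
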