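import Pool.Agent.H89.CSD.Shear

/-!
# The characteristic polynomial is irreducible
-/

namespace Pool.Agent.H89.CSD

open Matrix Polynomial

variable {d : ℕ}

/-- The real vector with rational coordinates `v`. -/
def rc (v : Fin d → ℚ) : Fin d → ℝ := fun j => (v j : ℝ)

theorem row_ne_zero {c : ℝ} (hc : 0 < c) {g : Matrix (Fin d) (Fin d) ℝ} (hp : Pos c g)
    {v : Fin d → ℚ} (hv : v ≠ 0) (i : Fin d) : (g *ᵥ rc v) i ≠ 0 := by
  classical
  intro h0
  set N : ℤ := ∏ j, ((v j).den : ℤ) with hN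
  have hN0 : N ≠ 0 := Finset.prod_ne_zero_iff.2 fun j _ => by exact_mod_cast (v j).den_nz
  set x : Fin d → ℤ := fun j => (∏ k ∈ Finset.univ.erase j, ((v k).den : ℤ)) * (v j).num with hx
  have hxv : ∀ j, (x j : ℚ) = N * v j := by
    intro j
    rw [hx, hN]
    push_cast
    rw [← Finset.mul_prod_erase Finset.univ (fun j => ((v j).den : ℚ)) (Finset.mem_univ j)]
    have h1 : ((v j).den : ℚ) * v j = (v j).num := by
      rw [mul_comm]
      exact Rat.mul_den_eq_num _
    rw [mul_comm ((v j).den : ℚ), mul_assoc, h1]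
  have hic : ic x = (N : ℝ) • rc v := by
    ext j
    have := hxv j
    have h2 : ((x j : ℚ) : ℝ) = ((N * v j : ℚ) : ℝ) := by rw [this]
    push_cast at h2
    simpa [ic, rc] using h2
  have hx0 : x ≠ 0 := by
    intro h
    apply hv
    ext j
    have h1 := hxv j
    rw [h] at h1
    simp only [Pi.zero_apply, Int.cast_zero] at h1
    rcases mul_eq_zero.1 h1.symm with h2 | h2
    · exact absurd (by exact_mod_cast h2) hN0
    · exact h2
  have h1 := hp x hx0
  rw [P_eq, Finset.prod_eq_zero (Finset.mem_univ i), abs_zero] at h1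
  · linarith
  · rw [hic, Matrix.mulVec_smul, Pi.smul_apply, h0, smul_zero]

theorem row_aeval {g : Matrix (Fin d) (Fin d) ℝ} {T : Matrix (Fin d) (Fin d) ℤ} {lam : Fin d → ℝ}
    (hT : ∀ i, vecMul (g i) (im T) = lam i • g i) (i : Fin d) (r : ℚ[X]) :
    ∀ v : Fin d → ℚ, (g *ᵥ rc ((aeval (T.map (Int.cast : ℤ → ℚ)) r) *ᵥ v)) i
      = (r.map (algebraMap ℚ ℝ)).eval (lam i) * (g *ᵥ rc v) i := by
  have hTv : ∀ v : Fin d → ℚ, (g *ᵥ rc ((T.map (Int.cast : ℤ → ℚ)) *ᵥ v)) i
      = lam i * (g *ᵥ rc v) i := by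
    intro v
    have h1 : rc ((T.map (Int.cast : ℤ → ℚ)) *ᵥ v) = im T *ᵥ rc v := by
      ext j
      simp [rc, im, Matrix.mulVec, dotProduct]
    rw [h1]
    have h2 : (g *ᵥ (im T *ᵥ rc v)) i = (vecMul (g i) (im T)) ⬝ᵥ rc v := by
      rw [← Matrix.dotProduct_mulVec]
      rfl
    rw [h2, hT i, smul_dotProduct]
    rfl
  induction r using Polynomial.induction_on with
  | C a =>
    intro v
    have h1 : rc ((aeval (T.map (Int.cast : ℤ → ℚ)) (C a)) *ᵥ v) = (a : ℝ) • rc v := by
      ext j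
      rw [aeval_C, Algebra.algebraMap_eq_smul_one, Matrix.smul_mulVec, Matrix.one_mulVec]
      simp [rc]
    rw [h1, Matrix.mulVec_smul]
    simp
  | add p q hp hq =>
    intro v
    have h1 : rc ((aeval (T.map (Int.cast : ℤ → ℚ)) (p + q)) *ᵥ v)
        = rc ((aeval (T.map (Int.cast : ℤ → ℚ)) p) *ᵥ v)
          + rc ((aeval (T.map (Int.cast : ℤ → ℚ)) q) *ᵥ v) := by
      ext j
      rw [map_add, Matrix.add_mulVec]
      simp [rc]
    rw [h1, Matrix.mulVec_add, Pi.add_apply, hp, hq, Polynomial.map_add, Polynomial.eval_add]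
    ring
  | monomial n a ih =>
    intro v
    have h1 : (aeval (T.map (Int.cast : ℤ → ℚ)) (C a * X ^ (n + 1))) *ᵥ v
        = (aeval (T.map (Int.cast : ℤ → ℚ)) (C a * X ^ n)) *ᵥ
          ((T.map (Int.cast : ℤ → ℚ)) *ᵥ v) := by
      rw [Matrix.mulVec_mulVec]
      congr 1
      rw [pow_succ, ← mul_assoc, map_mul, aeval_X]
    rw [h1, ih, hTv]
    simp only [Polynomial.map_mul, Polynomial.map_pow, Polynomial.map_C, Polynomial.map_X,
      Polynomial.eval_mul, Polynomial.eval_C, Polynomial.eval_pow, Polynomial.eval_X]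
    ring

theorem irreducible_of_pos {c : ℝ} (hc : 0 < c) {g : Matrix (Fin d) (Fin d) ℝ} (hp : Pos c g)
    (hd : 0 < d) {T : Matrix (Fin d) (Fin d) ℤ} {lam : Fin d → ℝ} (hlam : Function.Injective lam)
    (hT : ∀ i, vecMul (g i) (im T) = lam i • g i) :
    Irreducible (T.map (Int.cast : ℤ → ℚ)).charpoly := by
  classical
  set M : Matrix (Fin d) (Fin d) ℚ := T.map (Int.cast : ℤ → ℚ) with hM
  have hdeg : M.charpoly.natDegree = d := by
    rw [Matrix.charpoly_natDegree_eq_dim, Fintype.card_fin]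
  -- no nonzero rational vector is killed by a polynomial of small degree
  have key : ∀ r : ℚ[X], r ≠ 0 → r.natDegree < d → ∀ v : Fin d → ℚ, v ≠ 0 →
      (aeval M r) *ᵥ v ≠ 0 := by
    intro r hr hrd v hv h0
    have h1 : ∀ i, (r.map (algebraMap ℚ ℝ)).eval (lam i) = 0 := by
      intro i
      have h2 := row_aeval hT i r v
      rw [← hM, h0] at h2
      have h3 : rc (0 : Fin d → ℚ) = 0 := by
        ext j
        simp [rc]
      rw [h3, Matrix.mulVec_zero, Pi.zero_apply] at h2
      rcases mul_eq_zero.1 h2.symm with h | h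
      · exact h
      · exact absurd h (row_ne_zero hc hp hv i)
    have h4 : r.map (algebraMap ℚ ℝ) = 0 := by
      apply Polynomial.eq_zero_of_natDegree_lt_card_of_eval_eq_zero _ hlam h1
      rw [Fintype.card_fin]
      exact (Polynomial.natDegree_map_le).trans_lt hrd
    exact hr ((Polynomial.map_eq_zero _).1 h4)
  rw [(Matrix.charpoly_monic M).irreducible_iff_natDegree]
  refine ⟨?_, ?_⟩
  · intro h1
    rw [h1] at hdeg
    simp at hdeg
    omega
  · intro p q hpm hqm hpq
    by_contra hcon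
    push Not at hcon
    have h1 : p.natDegree + q.natDegree = d := by
      rw [← hdeg, ← hpq, hpm.natDegree_mul hqm]
    set v0 : Fin d → ℚ := Pi.single ⟨0, hd⟩ 1 with hv0
    have hv00 : v0 ≠ 0 := by
      intro h
      have := congrFun h ⟨0, hd⟩
      simp [hv0] at this
    have h2 : (aeval M p) *ᵥ ((aeval M q) *ᵥ v0) = 0 := by
      rw [Matrix.mulVec_mulVec, ← map_mul, hpq, Matrix.aeval_self_charpoly, Matrix.zero_mulVec]
    exact key p hpm.ne_zero (by omega) _ (key q hqm.ne_zero (by omega) _ hv00) h2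

end Pool.Agent.H89.CSD
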