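import Pool.Agent.H89.CSD.Irr
import Pool.Agent.H46.CoprimeBlockProof

/-!
# Isolation of integral forms
-/

namespace Pool.Agent.H89.CSD

open Matrix Filter Topology

variable {d : ℕ}

theorem eigen_transport {g : Matrix (Fin d) (Fin d) ℝ} {T : Matrix (Fin d) (Fin d) ℤ}
    {lam : Fin d → ℝ} (hT : ∀ i, vecMul (g i) (im T) = lam i • g i) (e : Fin d → ℝ)
    (U : (Matrix (Fin d) (Fin d) ℤ)ˣ) (i : Fin d) :
    vecMul ((diagonal e * g * im (U : Matrix (Fin d) (Fin d) ℤ)) i)
      (im (((U⁻¹ : (Matrix (Fin d) (Fin d) ℤ)ˣ) : Matrix (Fin d) (Fin d) ℤ) * T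
        * (U : Matrix (Fin d) (Fin d) ℤ)))
      = lam i • (diagonal e * g * im (U : Matrix (Fin d) (Fin d) ℤ)) i := by
  have h1 : diagonal e * g * im (U : Matrix (Fin d) (Fin d) ℤ) *
      im (((U⁻¹ : (Matrix (Fin d) (Fin d) ℤ)ˣ) : Matrix (Fin d) (Fin d) ℤ) * T
        * (U : Matrix (Fin d) (Fin d) ℤ)) =
      diagonal lam * (diagonal e * g * im (U : Matrix (Fin d) (Fin d) ℤ)) := by
    have h2 : im (U : Matrix (Fin d) (Fin d) ℤ) * im ((U⁻¹ : (Matrix (Fin d) (Fin d) ℤ)ˣ) :
        Matrix (Fin d) (Fin d) ℤ) = 1 := by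
      rw [← im_mul, Units.mul_inv, im_one]
    calc diagonal e * g * im (U : Matrix (Fin d) (Fin d) ℤ) *
            im (((U⁻¹ : (Matrix (Fin d) (Fin d) ℤ)ˣ) : Matrix (Fin d) (Fin d) ℤ) * T
              * (U : Matrix (Fin d) (Fin d) ℤ))
        = diagonal e * (g * ((im (U : Matrix (Fin d) (Fin d) ℤ) *
          im ((U⁻¹ : (Matrix (Fin d) (Fin d) ℤ)ˣ) : Matrix (Fin d) (Fin d) ℤ)) * (im T
            * im (U : Matrix (Fin d) (Fin d) ℤ)))) := by
          rw [im_mul, im_mul]
          simp only [Matrix.mul_assoc]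
      _ = diagonal e * ((g * im T) * im (U : Matrix (Fin d) (Fin d) ℤ)) := by
          rw [h2, Matrix.one_mul, Matrix.mul_assoc]
      _ = diagonal lam * (diagonal e * g * im (U : Matrix (Fin d) (Fin d) ℤ)) := by
          rw [eigen_mat hT]
          have h3 : diagonal e * diagonal lam = diagonal lam * diagonal e := by
            rw [Matrix.diagonal_mul_diagonal, Matrix.diagonal_mul_diagonal]
            congr 1
            ext i
            exact mul_comm _ _
          simp only [← Matrix.mul_assoc]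
          rw [h3]
  ext j
  have h2 := congrFun (congrFun h1 i) j
  rw [Matrix.diagonal_mul] at h2
  exact h2

theorem HasT.intForm {g : Matrix (Fin d) (Fin d) ℝ} (hg : g.det ≠ 0) (h : HasT g) : IntForm g := by
  obtain ⟨T, lam, hlam, hT⟩ := h
  exact Pool.Agent.H46.integral_of_eigen d g hg T lam hlam hT

/-- A form with positive minimum which shares a factor with an integral one is integral. -/
theorem hasT_of_row (hd : 3 ≤ d) {c : ℝ} (hc : 0 < c) {w w' : Matrix (Fin d) (Fin d) ℝ}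
    (hw' : w'.det ≠ 0) (hp : Pos c w) (hp' : Pos c w') (h : HasT w) (i : Fin d)
    (hi : w' i = w i) : HasT w' := by
  obtain ⟨T, lam, hlam, hT⟩ := h
  have hirr := irreducible_of_pos hc hp (by omega) hlam hT
  obtain ⟨K, _, _, Ψ, θ, hK, hΨ, hθ⟩ := Pool.Agent.H46.field_of_matrix d _ hirr
  have hcast : (Ψ θ).map (Rat.cast : ℚ → ℝ) = im T := by
    rw [hΨ]
    ext i j
    simp [im]
  obtain ⟨lam', hlam', heig⟩ := Pool.Agent.H46.main_K d hd hK Ψ w' hw' {i} (by simp) θ hθ
    (by
      intro j hj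
      rw [Finset.mem_singleton] at hj
      subst hj
      rw [hcast, hi, hT j, ← hi]
      apply Submodule.smul_mem
      apply Submodule.subset_span
      exact ⟨j, by simp, rfl⟩) c hc hp'
  rw [hcast] at heig
  exact ⟨T, lam', hlam', heig⟩

/-- Isolation of integral forms with positive minimum. -/
theorem isolation (hd : 3 ≤ d) {c : ℝ} (hc : 0 < c) {z0 : Matrix (Fin d) (Fin d) ℝ}
    (hz0 : z0.det ≠ 0) (h0 : Pos c z0) (hi : IntForm z0) :
    ∀ᶠ z in 𝓝 z0 ⊓ 𝓟 {z | Pos c z}, ∃ e : Fin d → ℝ, z = diagonal e * z0 := by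
  by_contra hcon
  obtain ⟨zs, hzs, hzn⟩ := Filter.exists_seq_forall_of_frequently
    (Filter.not_eventually.1 hcon)
  rw [tendsto_inf] at hzs
  obtain ⟨hz1, hz2⟩ := hzs
  rw [tendsto_principal] at hz2
  obtain ⟨N, hN⟩ := eventually_atTop.1 hz2
  set z : ℕ → Matrix (Fin d) (Fin d) ℝ := fun n => zs (n + N) with hz
  have hzlim : Tendsto z atTop (𝓝 z0) := hz1.comp (tendsto_add_atTop_nat N)
  have hzpos : ∀ n, Pos c (z n) := fun n => hN (n + N) (by omega)
  have hzne : ∀ n, ¬ ∃ e : Fin d → ℝ, z n = diagonal e * z0 := fun n => hzn (n + N)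
  have hunit : IsUnit z0.det := isUnit_iff_ne_zero.2 hz0
  set E : ℕ → Matrix (Fin d) (Fin d) ℝ := fun n => z n * z0⁻¹ - 1 with hE
  have hEz : ∀ n, (1 + E n) * z0 = z n := by
    intro n
    simp only [hE]
    rw [add_sub_cancel, Matrix.mul_assoc, Matrix.nonsing_inv_mul _ hunit, Matrix.mul_one]
  have hElim : Tendsto E atTop (𝓝 0) := by
    have h1 := (hzlim.mul (tendsto_const_nhds (x := z0⁻¹))).sub
      (tendsto_const_nhds (x := (1 : Matrix (Fin d) (Fin d) ℝ)))
    rwa [Matrix.mul_nonsing_inv _ hunit, sub_self] at h1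
  have hoff : ∀ n, ∃ i j, i ≠ j ∧ E n i j ≠ 0 := by
    intro n
    by_contra hcon
    push Not at hcon
    apply hzne n
    refine ⟨fun i => 1 + E n i i, ?_⟩
    rw [← hEz n]
    congr 1
    ext i j
    by_cases hij : i = j
    · subst hij
      simp
    · simp [Matrix.one_apply_ne hij, Matrix.diagonal_apply_ne _ hij, hcon i j hij]
  obtain ⟨k, l, s, w, φ, a, U, hkl, hs, hw1, hw2, hw3, hw4, -, ha, hprod, hlim⟩ :=
    magnify hc (abs_pos.2 hz0) (abs_nonneg z0.det) (fun _ => z0) E (fun n => le_rfl)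
      (fun n => le_rfl) (fun n => h0) (fun n => by rw [hEz]; exact hzpos n) hElim hoff
  have hw0 : w.det ≠ 0 := by
    intro h
    rw [h, abs_zero] at hw1
    exact absurd (abs_pos.2 hz0) (not_lt.2 hw1)
  -- `w` is equivalent to `z0`
  set y : ℕ → Matrix (Fin d) (Fin d) ℝ := fun n =>
    diagonal (a n) * z0 * im (U n : Matrix (Fin d) (Fin d) ℤ) with hy
  have hydet : ∀ n, |(y n).det| = |z0.det| := by
    intro n
    simp only [hy]
    rw [Matrix.det_mul, Matrix.det_mul, Matrix.det_diagonal, hprod, one_mul, abs_mul,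
      abs_det_im_unit, mul_one]
  have hydet0 : ∀ n, (y n).det ≠ 0 := by
    intro n h
    have := hydet n
    rw [h, abs_zero] at this
    exact hz0 (abs_eq_zero.1 this.symm)
  obtain ⟨κ, hκ, hval⟩ := hi.values
  have hev := eventually_P_eq hκ hlim (by
    intro n x
    rw [P_mul_im, P_diag_mul, hprod, one_mul]
    exact hval _)
  set F : ℕ → Matrix (Fin d) (Fin d) ℝ := fun n => w * (y n)⁻¹ - 1 with hF
  have hFy : ∀ n, (1 + F n) * y n = w := by
    intro n
    simp only [hF]
    rw [add_sub_cancel, Matrix.mul_assoc, Matrix.nonsing_inv_mul _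
      (isUnit_iff_ne_zero.2 (hydet0 n)), Matrix.mul_one]
  have hFlim : Tendsto F atTop (𝓝 0) := by
    have h1 : Tendsto (fun n => (y n)⁻¹) atTop (𝓝 w⁻¹) :=
      (continuousAt_inv hw0).tendsto.comp hlim
    have h3 := ((tendsto_const_nhds (x := w)).mul h1).sub
      (tendsto_const_nhds (x := (1 : Matrix (Fin d) (Fin d) ℝ)))
    rwa [Matrix.mul_nonsing_inv _ (isUnit_iff_ne_zero.2 hw0), sub_self] at h3
  have hsmall : ∀ᶠ n in atTop, ∀ i : Fin d, |F n i i| < 1 := by
    rw [eventually_all]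
    intro i
    have h1 : Tendsto (fun n => |F n i i|) atTop (𝓝 |(0 : Matrix (Fin d) (Fin d) ℝ) i i|) :=
      (((continuous_id.matrix_elem i i).tendsto (0 : Matrix (Fin d) (Fin d) ℝ)).comp hFlim).abs
    rw [Matrix.zero_apply, abs_zero] at h1
    exact h1.eventually (gt_mem_nhds (by norm_num))
  obtain ⟨n, h1, h2⟩ := (hsmall.and hev).exists
  have h4 : ∀ v : Fin d → ℝ, ∏ i, ((1 + F n) *ᵥ v) i = ∏ i, v i := by
    intro v
    have h5 : (y n) *ᵥ ((y n)⁻¹ *ᵥ v) = v := by
      rw [Matrix.mulVec_mulVec, Matrix.mul_nonsing_inv _ (isUnit_iff_ne_zero.2 (hydet0 n)),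
        Matrix.one_mulVec]
    have h6 : P ((1 + F n) * y n) ((y n)⁻¹ *ᵥ v) = P (y n) ((y n)⁻¹ *ᵥ v) := by
      rw [hFy, h2]
    rw [P_mul, h5, P_eq, P_eq, h5] at h6
    exact h6
  have h7 := diag_of_prod_eq h4 (fun i => by
    have := abs_lt.1 (h1 i)
    simp only [Matrix.add_apply, Matrix.one_apply_eq]
    intro h
    linarith [this.1])
  have hdiag : 1 + F n = diagonal (fun i => 1 + F n i i) := by
    ext i j
    by_cases hij : i = j
    · subst hij
      simp
    · rw [h7 i j hij, Matrix.diagonal_apply_ne _ hij]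
  have hweq : w = diagonal (fun i => (1 + F n i i) * a n i) * z0
      * im (U n : Matrix (Fin d) (Fin d) ℤ) := by
    have h8 := hFy n
    rw [hdiag] at h8
    rw [← h8, ← Matrix.diagonal_mul_diagonal]
    simp only [hy, Matrix.mul_assoc]
  have hTw : HasT w := by
    obtain ⟨T, lam, hlam, hT⟩ := hasT_of_intForm hc hz0 h0 hi
    rw [hweq]
    exact ⟨_, lam, hlam, eigen_transport hT _ (U n)⟩
  have hdet' : ((1 + Matrix.single k l s) * w).det ≠ 0 := by
    have h1 : (1 + Matrix.single k l s) * w = w.updateRow k (w k + s • w l) := by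
      ext i j
      by_cases hik : i = k
      · subst hik
        have h1 := congrFun (shear_row_eq (g := w) (k := i) (l := l) (s := s)) j
        rw [h1, Matrix.updateRow_self]
      · have h1 := congrFun (shear_row_ne (g := w) (k := k) (l := l) (s := s) hik) j
        rw [h1, Matrix.updateRow_ne hik]
    rw [h1, Matrix.det_updateRow_add_smul_self _ hkl]
    exact hw0
  have hT' : HasT ((1 + Matrix.single k l s) * w) :=
    hasT_of_row hd hc hdet' hw3 hw4 hTw l (shear_row_ne hkl.symm)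
  exact no_shear hc hw0 hw3 hkl (by
    intro h
    rw [h, abs_zero] at hs
    exact zero_ne_one hs) hTw hT'

end Pool.Agent.H89.CSD
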