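import Pool.Agent.H89.CSD.IntForm

/-!
# Shears of products of linear forms
-/

namespace Pool.Agent.H89.CSD

open Matrix Filter Topology

variable {d : ℕ}

theorem eigen_mat {g : Matrix (Fin d) (Fin d) ℝ} {T : Matrix (Fin d) (Fin d) ℤ} {lam : Fin d → ℝ}
    (h : ∀ i, vecMul (g i) (im T) = lam i • g i) : g * im T = diagonal lam * g := by
  ext i j
  have := congrFun (h i) j
  rw [Matrix.diagonal_mul]
  simpa [Matrix.vecMul, Matrix.mul_apply, dotProduct] using this

theorem shear_row_ne {g : Matrix (Fin d) (Fin d) ℝ} {k l : Fin d} {s : ℝ} {i : Fin d}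
    (hi : i ≠ k) : ((1 + Matrix.single k l s) * g) i = g i := by
  ext j
  rw [Matrix.add_mul, Matrix.one_mul, Matrix.add_apply, Matrix.single_mul_apply_of_ne _ _ _ _ _ hi,
    add_zero]

theorem shear_row_eq {g : Matrix (Fin d) (Fin d) ℝ} {k l : Fin d} {s : ℝ} :
    ((1 + Matrix.single k l s) * g) k = g k + s • g l := by
  ext j
  rw [Matrix.add_mul, Matrix.one_mul, Matrix.add_apply, Matrix.single_mul_apply_same]
  rfl

theorem shear_mulVec_ne {g : Matrix (Fin d) (Fin d) ℝ} {k l : Fin d} {s : ℝ} {i : Fin d}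
    (hi : i ≠ k) (x : Fin d → ℝ) : (((1 + Matrix.single k l s) * g) *ᵥ x) i = (g *ᵥ x) i := by
  simp only [Matrix.mulVec, shear_row_ne hi]

theorem shear_mulVec_eq {g : Matrix (Fin d) (Fin d) ℝ} {k l : Fin d} {s : ℝ} (x : Fin d → ℝ) :
    (((1 + Matrix.single k l s) * g) *ᵥ x) k = (g *ᵥ x) k + s * (g *ᵥ x) l := by
  simp only [Matrix.mulVec, shear_row_eq, add_dotProduct, smul_dotProduct, smul_eq_mul]

/-- Two products of linear forms with positive minimum, which differ by a shear, do not both have
a large automorphism group. -/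
theorem no_shear {c : ℝ} (hc : 0 < c) {g : Matrix (Fin d) (Fin d) ℝ} (hg : g.det ≠ 0)
    (hp : Pos c g) {k l : Fin d} (hkl : k ≠ l) {s : ℝ} (hs : s ≠ 0) (h1 : HasT g)
    (h2 : HasT ((1 + Matrix.single k l s) * g)) : False := by
  obtain ⟨T, lam, hlam, hT⟩ := h1
  obtain ⟨T', lam', hlam', hT'⟩ := h2
  have hT'l : vecMul (g l) (im T') = lam' l • g l := by
    have := hT' l
    rwa [shear_row_ne hkl.symm] at this
  have hT'k : vecMul (g k + s • g l) (im T') = lam' k • (g k + s • g l) := by
    have := hT' k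
    rwa [shear_row_eq] at this
  -- the matrices commute
  have hcomm : T * T' = T' * T := by
    have hz : ∀ x : Fin d → ℤ, (T * T' - T' * T) *ᵥ x = 0 := by
      intro x
      by_contra hne
      have hv := hp _ hne
      have h0 : (g *ᵥ ic ((T * T' - T' * T) *ᵥ x)) l = 0 := by
        rw [← im_mulVec]
        have h3 : im (T * T' - T' * T) = im T * im T' - im T' * im T := by
          rw [← im_mul, ← im_mul]
          ext i j
          simp [im]
        have h4 : (g *ᵥ (im (T * T' - T' * T) *ᵥ ic x)) l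
            = (vecMul (g l) (im (T * T' - T' * T))) ⬝ᵥ ic x := by
          rw [← Matrix.dotProduct_mulVec]
          rfl
        rw [h4, h3, Matrix.vecMul_sub, ← Matrix.vecMul_vecMul, ← Matrix.vecMul_vecMul, hT l, hT'l,
          Matrix.smul_vecMul, Matrix.smul_vecMul, hT l, hT'l, smul_smul, smul_smul,
          mul_comm (lam l), sub_self, zero_dotProduct]
      rw [P_eq, Finset.prod_eq_zero (Finset.mem_univ l) h0, abs_zero] at hv
      linarith
    have h5 : T * T' - T' * T = 0 := by
      ext i j
      have := congrFun (hz (Pi.single j 1)) i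
      simpa [Matrix.mulVec_single] using this
    exact sub_eq_zero.1 h5
  have hginv : g⁻¹ * g = 1 := Matrix.nonsing_inv_mul _ (isUnit_iff_ne_zero.2 hg)
  have hginv' : g * g⁻¹ = 1 := Matrix.mul_nonsing_inv _ (isUnit_iff_ne_zero.2 hg)
  set N : Matrix (Fin d) (Fin d) ℝ := g * im T' * g⁻¹ with hN
  have hNg : N * g = g * im T' := by
    rw [hN, Matrix.mul_assoc, hginv, Matrix.mul_one]
  have hND : N * diagonal lam = diagonal lam * N := by
    have h6 : N * diagonal lam * g = diagonal lam * N * g := by
      rw [Matrix.mul_assoc, ← eigen_mat hT, ← Matrix.mul_assoc, hNg, Matrix.mul_assoc, ← im_mul,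
        ← hcomm, im_mul, ← Matrix.mul_assoc, eigen_mat hT, Matrix.mul_assoc, ← hNg,
        ← Matrix.mul_assoc]
    have h7 := congrArg (fun M => M * g⁻¹) h6
    simp only [Matrix.mul_assoc] at h7
    rw [hginv', Matrix.mul_one, Matrix.mul_one] at h7
    exact h7
  have hNdiag : ∀ i j, i ≠ j → N i j = 0 := by
    intro i j hij
    have h8 := congrFun (congrFun hND i) j
    rw [Matrix.mul_diagonal, Matrix.diagonal_mul] at h8
    have h9 : N i j * (lam j - lam i) = 0 := by linarith
    rcases mul_eq_zero.1 h9 with h | h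
    · exact h
    · exact absurd (hlam (sub_eq_zero.1 h)) hij.symm
  have hrow : vecMul (g k) (im T') = N k k • g k := by
    ext j
    have h8 := congrFun (congrFun hNg k) j
    rw [Matrix.mul_apply] at h8
    rw [Finset.sum_eq_single k] at h8
    · have : vecMul (g k) (im T') j = (g * im T') k j := rfl
      rw [this, ← h8]
      rfl
    · intro b _ hb
      rw [hNdiag k b hb.symm, zero_mul]
    · intro h
      exact absurd (Finset.mem_univ k) h
  rw [Matrix.add_vecMul, Matrix.smul_vecMul, hrow, hT'l] at hT'k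
  have hvec : vecMul ((N k k - lam' k) • Pi.single k 1 + (s * (lam' l - lam' k)) • Pi.single l 1) g
      = 0 := by
    rw [Matrix.add_vecMul, Matrix.smul_vecMul, Matrix.smul_vecMul, Matrix.single_one_vecMul,
      Matrix.single_one_vecMul]
    ext j
    have := congrFun hT'k j
    simp only [Pi.add_apply, Pi.smul_apply, smul_eq_mul, Pi.zero_apply] at this ⊢
    have h1 : g.row k j = g k j := rfl
    have h2 : g.row l j = g l j := rfl
    rw [h1, h2]
    linarith
  have h10 := Matrix.eq_zero_of_vecMul_eq_zero hg hvec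
  have h11 := congrFun h10 l
  simp only [Pi.add_apply, Pi.smul_apply, smul_eq_mul, Pi.zero_apply,
    Pi.single_eq_of_ne hkl.symm, Pi.single_eq_same, mul_zero, zero_add, mul_one] at h11
  rcases mul_eq_zero.1 h11 with h | h
  · exact hs h
  · exact hkl (hlam' (sub_eq_zero.1 h)).symm

end Pool.Agent.H89.CSD
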