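import Pool.Agent.H89.CSD.Mink

/-!
# Products of linear forms: definitions, short bases, Mahler compactness
-/

namespace Pool.Agent.H89.CSD

open Matrix

variable {d : ℕ}

/-- The value at the real vector `x` of the product of the linear forms whose coefficient vectors
are the rows of `g`. -/
def P (g : Matrix (Fin d) (Fin d) ℝ) (x : Fin d → ℝ) : ℝ := ∏ i, ∑ j, g i j * x j

/-- The real vector with integer coordinates `x`. -/
def ic (x : Fin d → ℤ) : Fin d → ℝ := fun j => (x j : ℝ)

/-- The real matrix with integer entries `T`. -/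
def im (T : Matrix (Fin d) (Fin d) ℤ) : Matrix (Fin d) (Fin d) ℝ := T.map (Int.cast : ℤ → ℝ)

/-- The product of the forms is at least `c` in absolute value at the nonzero integer vectors. -/
def Pos (c : ℝ) (g : Matrix (Fin d) (Fin d) ℝ) : Prop := ∀ x : Fin d → ℤ, x ≠ 0 → c ≤ |P g (ic x)|

theorem P_eq (g : Matrix (Fin d) (Fin d) ℝ) (x : Fin d → ℝ) : P g x = ∏ i, (g *ᵥ x) i := rfl

theorem P_mul (g h : Matrix (Fin d) (Fin d) ℝ) (x : Fin d → ℝ) : P (g * h) x = P g (h *ᵥ x) := by
  rw [P_eq, P_eq, ← Matrix.mulVec_mulVec]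

theorem im_mulVec (T : Matrix (Fin d) (Fin d) ℤ) (x : Fin d → ℤ) : im T *ᵥ ic x = ic (T *ᵥ x) := by
  ext i
  simp [im, ic, Matrix.mulVec, dotProduct]

theorem P_mul_im (g : Matrix (Fin d) (Fin d) ℝ) (T : Matrix (Fin d) (Fin d) ℤ) (x : Fin d → ℤ) :
    P (g * im T) (ic x) = P g (ic (T *ᵥ x)) := by
  rw [P_mul, im_mulVec]

theorem P_diag_mul (a : Fin d → ℝ) (g : Matrix (Fin d) (Fin d) ℝ) (x : Fin d → ℝ) :
    P (diagonal a * g) x = (∏ i, a i) * P g x := by
  rw [P_eq, P_eq, ← Matrix.mulVec_mulVec, ← Finset.prod_mul_distrib]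
  apply Finset.prod_congr rfl
  intro i _
  rw [Matrix.mulVec_diagonal]

theorem im_one : im (1 : Matrix (Fin d) (Fin d) ℤ) = 1 := by
  ext i j
  simp [im, Matrix.one_apply]

theorem im_mul (S T : Matrix (Fin d) (Fin d) ℤ) : im (S * T) = im S * im T := by
  ext i j
  simp [im, Matrix.mul_apply]

theorem det_im (T : Matrix (Fin d) (Fin d) ℤ) : (im T).det = (T.det : ℝ) := by
  have := (Int.castRingHom ℝ).map_det T
  simpa [im, RingHom.mapMatrix_apply] using this.symm

theorem ic_ne {x : Fin d → ℤ} (hx : x ≠ 0) : ic x ≠ 0 := by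
  intro h
  apply hx
  ext i
  have := congrFun h i
  simpa [ic] using this

theorem mulVec_ne {T : Matrix (Fin d) (Fin d) ℤ} (hT : T.det ≠ 0) {x : Fin d → ℤ} (hx : x ≠ 0) :
    T *ᵥ x ≠ 0 := by
  intro h
  exact hx (Matrix.eq_zero_of_mulVec_eq_zero hT h)

theorem Pos.mul_im {c : ℝ} {g : Matrix (Fin d) (Fin d) ℝ} (h : Pos c g)
    {T : Matrix (Fin d) (Fin d) ℤ} (hT : T.det ≠ 0) : Pos c (g * im T) := by
  intro x hx
  rw [P_mul_im]
  exact h _ (mulVec_ne hT hx)

theorem Pos.diag_mul {c : ℝ} {g : Matrix (Fin d) (Fin d) ℝ} (h : Pos c g) {a : Fin d → ℝ}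
    (ha : |∏ i, a i| = 1) : Pos c (diagonal a * g) := by
  intro x hx
  rw [P_diag_mul, abs_mul, ha, one_mul]
  exact h x hx

/-- If the product is bounded below then so is the largest form. -/
theorem Pos.short {c : ℝ} {g : Matrix (Fin d) (Fin d) ℝ} (h : Pos c g)
    {x : Fin d → ℤ} (hx : x ≠ 0) : ∃ i, min c 1 ≤ |(g *ᵥ ic x) i| := by
  by_contra hcon
  push Not at hcon
  have hd : 0 < d := by
    rcases Nat.eq_zero_or_pos d with rfl | h0
    · exact absurd (Subsingleton.elim x 0) hx
    · exact h0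
  have h1 := h x hx
  rw [P_eq, Finset.abs_prod] at h1
  have h2 : ∏ i : Fin d, |(g *ᵥ ic x) i| < min c 1 := by
    have i0 : Fin d := ⟨0, hd⟩
    have h3 : ∏ i : Fin d, |(g *ᵥ ic x) i| ≤ |(g *ᵥ ic x) i0| := by
      rw [← Finset.mul_prod_erase _ _ (Finset.mem_univ i0)]
      have h4 : ∏ i ∈ Finset.univ.erase i0, |(g *ᵥ ic x) i| ≤ 1 :=
        Finset.prod_le_one (fun _ _ => abs_nonneg _) fun i _ =>
          ((hcon i).trans_le (min_le_right _ _)).le
      exact mul_le_of_le_one_right (abs_nonneg _) h4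
    exact h3.trans_lt (hcon i0)
  exact absurd (h1.trans_lt (h2.trans_le (min_le_left _ _))) (lt_irrefl _)

/-- Existence of independent short integer vectors. -/
theorem short_basis (d : ℕ) (ρ D : ℝ) (hρ : 0 < ρ) (hD : 0 ≤ D) :
    ∃ R : ℝ, 0 ≤ R ∧ ∀ g : Matrix (Fin d) (Fin d) ℝ, g.det ≠ 0 → |g.det| ≤ D →
      (∀ x : Fin d → ℤ, x ≠ 0 → ∃ i, ρ ≤ |(g *ᵥ ic x) i|) →
      ∃ T : Matrix (Fin d) (Fin d) ℤ, T.det ≠ 0 ∧ ∀ i j, |(g * im T) i j| ≤ R := by
  classical
  rcases Nat.eq_zero_or_pos d with rfl | hd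
  · exact ⟨0, le_rfl, fun g _ _ _ => ⟨1, by simp, fun i => i.elim0⟩⟩
  set t : ℝ := ρ / (2 * d) with ht
  have hdR : (0 : ℝ) < d := by exact_mod_cast hd
  have ht0 : 0 < t := by positivity
  set H : ℝ := (D + 1) / t ^ (d - 1) with hH
  have hH0 : 0 < H := by positivity
  refine ⟨H + d * t, by positivity, fun g hg hgD hsh => ?_⟩
  set R : ℝ := H + d * t with hR
  set S : Set (Fin d → ℝ) := {v | ∃ x : Fin d → ℤ, v = g *ᵥ ic x ∧ ∀ i, |(g *ᵥ ic x) i| ≤ R} with hS
  have hspan : Submodule.span ℝ S = ⊤ := by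
    by_contra hne
    obtain ⟨φ, hφ0, hφ⟩ := Submodule.exists_dual_map_eq_bot_of_lt_top
      (lt_top_iff_ne_top.2 hne) inferInstance
    -- coefficients of the functional
    set n : Fin d → ℝ := fun i => φ (Pi.single i 1) with hn
    have hφn : ∀ v : Fin d → ℝ, φ v = ∑ i, n i * v i := by
      intro v
      conv_lhs => rw [← Finset.univ_sum_single v]
      rw [map_sum]
      apply Finset.sum_congr rfl
      intro i _
      have : (Pi.single i (v i) : Fin d → ℝ) = v i • Pi.single i 1 := by
        ext k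
        by_cases hk : k = i
        · subst hk; simp
        · simp [Pi.single_eq_of_ne hk]
      rw [this, map_smul, smul_eq_mul, mul_comm]
    have hnez : Nonempty (Fin d) := ⟨⟨0, hd⟩⟩
    obtain ⟨k, hk⟩ := Finite.exists_max (fun i => |n i|)
    have hnk : n k ≠ 0 := by
      intro h0
      apply hφ0
      ext i
      have h1 := hk i
      rw [h0, abs_zero] at h1
      have h2 : n i = 0 := abs_eq_zero.1 (le_antisymm h1 (abs_nonneg _))
      simpa [hn] using h2
    set m : Fin d → ℝ := fun i => n i / n k with hm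
    have hmk : m k = 1 := by simp [hm, hnk]
    have hm1 : ∀ i, |m i| ≤ 1 := by
      intro i
      rw [hm, abs_div, div_le_one (abs_pos.2 hnk)]
      exact hk i
    set M : Matrix (Fin d) (Fin d) ℝ := g.updateRow k (∑ i, m i • g i) with hM
    have hMdet : M.det = g.det := by
      rw [hM, Matrix.det_updateRow_sum, hmk, one_smul]
    set τ : Fin d → ℝ := Function.update (fun _ => t) k H with hτ
    have hτk : τ k = H := by simp [hτ]
    have hτi : ∀ i, i ≠ k → τ i = t := fun i hi => by simp [hτ, hi]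
    have hprod : ∏ i, τ i = D + 1 := by
      rw [← Finset.mul_prod_erase _ _ (Finset.mem_univ k), hτk]
      have : ∏ i ∈ Finset.univ.erase k, τ i = t ^ (d - 1) := by
        rw [Finset.prod_congr rfl (fun i hi => hτi i (Finset.ne_of_mem_erase hi))]
        simp
      rw [this, hH, div_mul_cancel₀ _ (by positivity)]
    obtain ⟨x, hx0, hx⟩ := minkowski_forms M (by rwa [hMdet]) τ
      (fun i => by
        by_cases hi : i = k
        · rw [hi, hτk]; exact hH0
        · rw [hτi i hi]; exact ht0)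
      (by rw [hprod, hMdet]; linarith)
    have hxi : ∀ i, i ≠ k → |(g *ᵥ ic x) i| ≤ t := by
      intro i hi
      have := hx i
      rw [hτi i hi, hM, Matrix.updateRow_ne hi] at this
      exact this
    have hxk : |∑ i, m i * (g *ᵥ ic x) i| ≤ H := by
      have := hx k
      rw [hτk, hM, Matrix.updateRow_self] at this
      convert this using 2
      simp only [Finset.sum_apply, Pi.smul_apply, smul_eq_mul, Matrix.mulVec, dotProduct, ic,
        Finset.mul_sum, Finset.sum_mul]
      rw [Finset.sum_comm]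
      apply Finset.sum_congr rfl
      intro i _
      apply Finset.sum_congr rfl
      intro j _
      ring
    have hsplit : (g *ᵥ ic x) k = (∑ i, m i * (g *ᵥ ic x) i)
        - ∑ i ∈ Finset.univ.erase k, m i * (g *ᵥ ic x) i := by
      rw [← Finset.add_sum_erase Finset.univ (fun i => m i * (g *ᵥ ic x) i) (Finset.mem_univ k),
        hmk]
      ring
    have hrest : |∑ i ∈ Finset.univ.erase k, m i * (g *ᵥ ic x) i| ≤ (d - 1) * t := by
      refine (Finset.abs_sum_le_sum_abs _ _).trans ?_
      have : ∀ i ∈ Finset.univ.erase k, |m i * (g *ᵥ ic x) i| ≤ t := by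
        intro i hi
        rw [abs_mul]
        calc |m i| * |(g *ᵥ ic x) i| ≤ 1 * t :=
              mul_le_mul (hm1 i) (hxi i (Finset.ne_of_mem_erase hi)) (abs_nonneg _) zero_le_one
          _ = t := one_mul t
      refine (Finset.sum_le_card_nsmul _ _ _ this).trans ?_
      rw [nsmul_eq_mul]
      simp only [Finset.card_erase_of_mem (Finset.mem_univ k), Finset.card_univ, Fintype.card_fin]
      rw [Nat.cast_sub (by omega)]
      simp
    have hxmem : (g *ᵥ ic x) ∈ S := by
      refine ⟨x, rfl, fun i => ?_⟩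
      by_cases hi : i = k
      · rw [hi, hsplit]
        refine (abs_sub _ _).trans ?_
        have : ((d : ℝ) - 1) * t ≤ d * t := by nlinarith
        rw [hR]
        linarith
      · refine (hxi i hi).trans ?_
        have : t ≤ d * t := by
          have : (1 : ℝ) ≤ d := by exact_mod_cast hd
          nlinarith
        rw [hR]
        linarith
    have hφx : φ (g *ᵥ ic x) = 0 := by
      have h1 : φ (g *ᵥ ic x) ∈ (Submodule.span ℝ S).map φ :=
        Submodule.mem_map_of_mem (Submodule.subset_span hxmem)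
      rw [hφ] at h1
      simpa using h1
    have hzero : ∑ i, m i * (g *ᵥ ic x) i = 0 := by
      have h1 : ∑ i, m i * (g *ᵥ ic x) i = (∑ i, n i * (g *ᵥ ic x) i) / n k := by
        rw [Finset.sum_div]
        apply Finset.sum_congr rfl
        intro i _
        simp only [hm]
        ring
      rw [h1, ← hφn, hφx, zero_div]
    obtain ⟨i, hi⟩ := hsh x hx0
    have hlt : ((d : ℝ) - 1) * t < ρ := by
      have : d * t = ρ / 2 := by
        rw [ht]
        field_simp
      nlinarith
    have ht' : t < ρ := by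
      rw [ht, div_lt_iff₀ (by positivity)]
      have : (1 : ℝ) ≤ d := by exact_mod_cast hd
      nlinarith
    by_cases hik : i = k
    · rw [hik, hsplit, hzero, zero_sub, abs_neg] at hi
      linarith
    · have := hxi i hik
      linarith
  obtain ⟨b, hbS, hbspan, hbli⟩ := exists_linearIndependent ℝ S
  have hbtop : ⊤ ≤ Submodule.span ℝ (Set.range ((↑) : b → (Fin d → ℝ))) := by
    rw [Subtype.range_coe, hbspan, hspan]
  let B := Module.Basis.mk hbli hbtop
  let e := B.indexEquiv (Pi.basisFun ℝ (Fin d))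
  have hmem : ∀ j : Fin d, ((e.symm j : b) : Fin d → ℝ) ∈ S := fun j => hbS (e.symm j).2
  choose x hx1 hx2 using hmem
  have hmul : ∀ i j, (g * im (Matrix.of fun i j => x j i)) i j
      = ((e.symm j : b) : Fin d → ℝ) i := by
    intro i j
    rw [hx1 j]
    simp [Matrix.mul_apply, Matrix.mulVec, dotProduct, im, ic]
  refine ⟨Matrix.of fun i j => x j i, ?_, fun i j => ?_⟩
  · intro hdet
    have hli : LinearIndependent ℝ (fun j => ((e.symm j : b) : Fin d → ℝ)) :=
      hbli.comp _ e.symm.injective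
    have h1 : (g * im (Matrix.of fun i j => x j i)).det = 0 := by
      rw [Matrix.det_mul, det_im, hdet]
      simp
    have h2 : IsUnit (g * im (Matrix.of fun i j => x j i)) := by
      rw [← Matrix.linearIndependent_cols_iff_isUnit]
      have hcol : (g * im (Matrix.of fun i j => x j i)).col
          = (fun j => ((e.symm j : b) : Fin d → ℝ)) := by
        ext j i
        exact hmul i j
      rw [hcol]
      exact hli
    rw [Matrix.isUnit_iff_isUnit_det, h1] at h2
    simp at h2
  · rw [hmul i j]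
    have := hx2 j i
    rwa [← hx1 j] at this

end Pool.Agent.H89.CSD
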