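import Pool.Agent.H89.CSD.Iso

/-!
# Minimal sets and the dichotomy
-/

namespace Pool.Agent.H89.CSD

open Matrix Filter Topology

variable {d : ℕ}

theorem diag_of_prod_zero {M : Matrix (Fin d) (Fin d) ℝ}
    (h : ∀ (v : Fin d → ℝ) (j : Fin d), v j = 0 → ∏ i, (M *ᵥ v) i = 0) (hM : ∀ i, M i i ≠ 0) :
    ∀ i j, i ≠ j → M i j = 0 := by
  classical
  intro j k0 hjk
  by_contra hne
  set p : Fin d → Polynomial ℝ := fun i =>
    ∑ k ∈ Finset.univ.erase j, Polynomial.C (M i k) * Polynomial.X ^ (k : ℕ) with hp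
  have hcoef : ∀ i k, k ≠ j → (p i).coeff (k : ℕ) = M i k := by
    intro i k hk
    simp only [hp, Polynomial.finsetSum_coeff, Polynomial.coeff_C_mul, Polynomial.coeff_X_pow]
    rw [Finset.sum_eq_single k]
    · simp
    · intro b _ hb
      have : (k : ℕ) ≠ (b : ℕ) := fun h => hb (Fin.ext h.symm)
      simp [this]
    · intro h
      exact absurd (Finset.mem_erase.2 ⟨hk, Finset.mem_univ k⟩) h
  have hp0 : ∀ i, p i ≠ 0 := by
    intro i h0
    by_cases hij : i = j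
    · subst hij
      have := hcoef i k0 (Ne.symm hjk)
      rw [h0, Polynomial.coeff_zero] at this
      exact hne this.symm
    · have := hcoef i i hij
      rw [h0, Polynomial.coeff_zero] at this
      exact hM i this.symm
  have hprod : ∏ i, p i ≠ 0 := Finset.prod_ne_zero_iff.2 fun i _ => hp0 i
  obtain ⟨t, ht⟩ : ∃ t : ℝ, (∏ i, p i).eval t ≠ 0 := by
    by_contra hcon
    push Not at hcon
    exact hprod (Polynomial.funext fun t => by rw [hcon t, Polynomial.eval_zero])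
  set v : Fin d → ℝ := fun k => if k = j then 0 else t ^ (k : ℕ) with hv
  have h1 := h v j (by simp [hv])
  apply ht
  rw [Polynomial.eval_prod, ← h1]
  apply Finset.prod_congr rfl
  intro i _
  simp only [hp, Polynomial.eval_finsetSum, Polynomial.eval_mul, Polynomial.eval_C,
    Polynomial.eval_pow, Polynomial.eval_X, Matrix.mulVec, dotProduct]
  rw [← Finset.sum_erase (Finset.univ) (a := j) (by simp [hv])]
  apply Finset.sum_congr rfl
  intro k hk
  simp [hv, Finset.ne_of_mem_erase hk]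

/-- Matrices with determinant `±1` and product bounded below. -/
def XX (d : ℕ) (c : ℝ) : Set (Matrix (Fin d) (Fin d) ℝ) := {z | |z.det| = 1 ∧ Pos c z}

theorem isClosed_XX (c : ℝ) : IsClosed (XX d c) :=
  (isClosed_eq continuous_det'.abs continuous_const).inter (isClosed_pos c)

theorem XX.det_ne {c : ℝ} {z : Matrix (Fin d) (Fin d) ℝ} (h : z ∈ XX d c) : z.det ≠ 0 := by
  intro h0
  have := h.1
  rw [h0, abs_zero] at this
  exact zero_ne_one this

/-- Invariance under the diagonal group and the integral unimodular group. -/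
def Inv (Y : Set (Matrix (Fin d) (Fin d) ℝ)) : Prop :=
  ∀ a : Fin d → ℝ, (∀ i, 0 < a i) → ∏ i, a i = 1 → ∀ U : (Matrix (Fin d) (Fin d) ℤ)ˣ,
    ∀ y ∈ Y, diagonal a * y * im (U : Matrix (Fin d) (Fin d) ℤ) ∈ Y

theorem act_mem_XX {c : ℝ} {a : Fin d → ℝ} (hprod : ∏ i, a i = 1)
    (U : (Matrix (Fin d) (Fin d) ℤ)ˣ) {y : Matrix (Fin d) (Fin d) ℝ} (hy : y ∈ XX d c) :
    diagonal a * y * im (U : Matrix (Fin d) (Fin d) ℤ) ∈ XX d c := by
  refine ⟨?_, ?_⟩
  · rw [Matrix.det_mul, Matrix.det_mul, Matrix.det_diagonal, hprod, one_mul, abs_mul,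
      abs_det_im_unit, mul_one]
    exact hy.1
  · exact (hy.2.diag_mul (by rw [hprod, abs_one])).mul_im (det_unit_ne _)

/-- The matrices whose rows are not eigenvectors of one integer matrix. -/
def NN (d : ℕ) (c : ℝ) : Set (Matrix (Fin d) (Fin d) ℝ) := {z | z ∈ XX d c ∧ ¬ HasT z}

theorem hasT_act {g : Matrix (Fin d) (Fin d) ℝ} (h : HasT g) (e : Fin d → ℝ)
    (U : (Matrix (Fin d) (Fin d) ℤ)ˣ) :
    HasT (diagonal e * g * im (U : Matrix (Fin d) (Fin d) ℤ)) := by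
  obtain ⟨T, lam, hlam, hT⟩ := h
  exact ⟨_, lam, hlam, eigen_transport hT e U⟩

theorem hasT_diag {g : Matrix (Fin d) (Fin d) ℝ} (h : HasT g) (e : Fin d → ℝ) :
    HasT (diagonal e * g) := by
  have := hasT_act h e 1
  simpa [im_one] using this

theorem unact {a : Fin d → ℝ} (ha : ∀ i, a i ≠ 0) (U : (Matrix (Fin d) (Fin d) ℤ)ˣ)
    (y : Matrix (Fin d) (Fin d) ℝ) :
    diagonal (fun i => (a i)⁻¹) * (diagonal a * y * im (U : Matrix (Fin d) (Fin d) ℤ)) *
      im ((U⁻¹ : (Matrix (Fin d) (Fin d) ℤ)ˣ) : Matrix (Fin d) (Fin d) ℤ) = y := by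
  have h1 : diagonal (fun i => (a i)⁻¹) * diagonal a = 1 := by
    rw [Matrix.diagonal_mul_diagonal, ← Matrix.diagonal_one]
    congr 1
    ext i
    exact inv_mul_cancel₀ (ha i)
  have h2 : im (U : Matrix (Fin d) (Fin d) ℤ) * im ((U⁻¹ : (Matrix (Fin d) (Fin d) ℤ)ˣ) :
      Matrix (Fin d) (Fin d) ℤ) = 1 := by
    rw [← im_mul, Units.mul_inv, im_one]
  calc diagonal (fun i => (a i)⁻¹) * (diagonal a * y * im (U : Matrix (Fin d) (Fin d) ℤ)) *
        im ((U⁻¹ : (Matrix (Fin d) (Fin d) ℤ)ˣ) : Matrix (Fin d) (Fin d) ℤ)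
      = (diagonal (fun i => (a i)⁻¹) * diagonal a) * y * (im (U : Matrix (Fin d) (Fin d) ℤ) *
        im ((U⁻¹ : (Matrix (Fin d) (Fin d) ℤ)ˣ) : Matrix (Fin d) (Fin d) ℤ)) := by
        simp only [Matrix.mul_assoc]
    _ = y := by rw [h1, h2, Matrix.one_mul, Matrix.mul_one]

theorem inv_NN (c : ℝ) : Inv (NN d c) := by
  intro a ha hprod U y hy
  refine ⟨act_mem_XX hprod U hy.1, fun h => hy.2 ?_⟩
  have := hasT_act h (fun i => (a i)⁻¹) U⁻¹
  rwa [unact (fun i => (ha i).ne') U y] at this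

theorem isClosed_NN (hd : 3 ≤ d) {c : ℝ} (hc : 0 < c) : IsClosed (NN d c) := by
  rw [← closure_subset_iff_isClosed]
  intro z hz
  have hzX : z ∈ XX d c := by
    have h1 : closure (NN d c) ⊆ closure (XX d c) := closure_mono fun y hy => hy.1
    exact (isClosed_XX c).closure_eq ▸ h1 hz
  refine ⟨hzX, fun hT => ?_⟩
  have h1 := isolation hd hc (XX.det_ne hzX) hzX.2 (hT.intForm (XX.det_ne hzX))
  rw [mem_closure_iff_frequently] at hz
  have h2 : ∀ᶠ y in 𝓝 z, Pos c y → ∃ e : Fin d → ℝ, y = diagonal e * z :=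
    eventually_inf_principal.1 h1
  obtain ⟨y, hy, hy2⟩ := (hz.and_eventually h2).exists
  obtain ⟨e, he⟩ := hy2 hy.1.2
  exact hy.2 (he ▸ hasT_diag hT e)

theorem continuous_act (a : Fin d → ℝ) (B : Matrix (Fin d) (Fin d) ℝ) :
    Continuous (fun y : Matrix (Fin d) (Fin d) ℝ => diagonal a * y * B) :=
  (continuous_const.mul continuous_id).mul continuous_const

theorem inv_closure {Y : Set (Matrix (Fin d) (Fin d) ℝ)} (h : Inv Y) : Inv (closure Y) := by
  intro a ha hprod U y hy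
  exact map_mem_closure (f := fun y => diagonal a * y * im (U : Matrix (Fin d) (Fin d) ℤ))
    (continuous_act a (im (U : Matrix (Fin d) (Fin d) ℤ))) hy (fun z hz => h a ha hprod U z hz)

/-- The orbit of a matrix. -/
def orb (y : Matrix (Fin d) (Fin d) ℝ) : Set (Matrix (Fin d) (Fin d) ℝ) :=
  {z | ∃ a : Fin d → ℝ, (∀ i, 0 < a i) ∧ ∏ i, a i = 1 ∧ ∃ U : (Matrix (Fin d) (Fin d) ℤ)ˣ,
    z = diagonal a * y * im (U : Matrix (Fin d) (Fin d) ℤ)}

theorem inv_orb (y : Matrix (Fin d) (Fin d) ℝ) : Inv (orb y) := by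
  rintro a ha hprod U _ ⟨b, hb, hbprod, V, rfl⟩
  refine ⟨fun i => a i * b i, fun i => mul_pos (ha i) (hb i), ?_, V * U, ?_⟩
  · rw [Finset.prod_mul_distrib, hprod, hbprod, one_mul]
  · rw [Units.val_mul, im_mul, ← Matrix.diagonal_mul_diagonal]
    simp only [Matrix.mul_assoc]

theorem mem_orb (y : Matrix (Fin d) (Fin d) ℝ) : y ∈ orb y :=
  ⟨fun _ => 1, fun _ => one_pos, by simp, 1, by simp [im_one]⟩

/-- The family of closed nonempty invariant subsets. -/
def Fam (N : Set (Matrix (Fin d) (Fin d) ℝ)) : Set (Set (Matrix (Fin d) (Fin d) ℝ)) :=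
  {Y | Y ⊆ N ∧ IsClosed Y ∧ Y.Nonempty ∧ Inv Y}

theorem exists_minimal_fam {c : ℝ} (hc : 0 < c) {N : Set (Matrix (Fin d) (Fin d) ℝ)}
    (hNX : N ⊆ XX d c) (hN : IsClosed N) (hNe : N.Nonempty) (hNi : Inv N) :
    ∃ Y, Minimal (· ∈ Fam N) Y := by
  obtain ⟨R, hR0, hR⟩ := mahler d (min c 1) 1 1 (lt_min hc one_pos) one_pos zero_le_one
  have hmeet : ∀ Y ∈ Fam N, (Y ∩ KK d R 1 1).Nonempty := by
    rintro Y ⟨hYN, -, ⟨y, hy⟩, hYi⟩
    have hyX := hNX (hYN hy)
    obtain ⟨U, hU⟩ := hR y hyX.1.ge hyX.1.le (fun x hx => hyX.2.short hx)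
    have h1 : y * im (U : Matrix (Fin d) (Fin d) ℤ) ∈ Y := by
      have := hYi (fun _ => 1) (fun _ => one_pos) (by simp) U y hy
      simpa using this
    refine ⟨_, h1, hU, ?_, ?_⟩
    · exact (hNX (hYN h1)).1.ge
    · exact (hNX (hYN h1)).1.le
  apply zorn_superset
  intro C hC hchain
  rcases C.eq_empty_or_nonempty with rfl | hCne
  · exact ⟨N, ⟨subset_rfl, hN, hNe, hNi⟩, by simp⟩
  · refine ⟨⋂₀ C, ⟨?_, ?_, ?_, ?_⟩, fun s hs => Set.sInter_subset_of_mem hs⟩
    · obtain ⟨Y, hY⟩ := hCne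
      exact (Set.sInter_subset_of_mem hY).trans (hC hY).1
    · exact isClosed_sInter fun Y hY => (hC hY).2.1
    · set C' : Set (Set (Matrix (Fin d) (Fin d) ℝ)) := (fun Y => Y ∩ KK d R 1 1) '' C with hC'
      have hC'ne : C'.Nonempty := hCne.image _
      have : Nonempty C' := hC'ne.to_subtype
      have h1 : (⋂₀ C').Nonempty := by
        apply IsCompact.nonempty_sInter_of_directed_nonempty_isCompact_isClosed
        · rintro _ ⟨Y, hY, rfl⟩ _ ⟨Y', hY', rfl⟩
          rcases hchain.total hY hY' with h | h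
          · exact ⟨_, ⟨Y, hY, rfl⟩, subset_rfl, Set.inter_subset_inter_left _ h⟩
          · exact ⟨_, ⟨Y', hY', rfl⟩, Set.inter_subset_inter_left _ h, subset_rfl⟩
        · rintro _ ⟨Y, hY, rfl⟩
          exact hmeet Y (hC hY)
        · rintro _ ⟨Y, hY, rfl⟩
          exact (isCompact_KK R 1 1).inter_left (hC hY).2.1
        · rintro _ ⟨Y, hY, rfl⟩
          exact (hC hY).2.1.inter (isCompact_KK R 1 1).isClosed
      obtain ⟨z, hz⟩ := h1
      exact ⟨z, fun Y hY => (hz _ ⟨Y, hY, rfl⟩).1⟩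
    · intro a ha hprod U y hy Y hY
      exact (hC hY).2.2.2 a ha hprod U y (hy Y hY)

/-- In a minimal set, local triviality of the transverse structure at one point implies that the
rows are eigenvectors of one integer matrix. -/
theorem hasT_of_minimal {c : ℝ} (hc : 0 < c) {N : Set (Matrix (Fin d) (Fin d) ℝ)}
    (hNX : N ⊆ XX d c) {Y : Set (Matrix (Fin d) (Fin d) ℝ)} (hY : Minimal (· ∈ Fam N) Y)
    {y0 : Matrix (Fin d) (Fin d) ℝ} (hy0 : y0 ∈ Y)
    (hloc : ∀ᶠ y in 𝓝 y0 ⊓ 𝓟 Y, ∃ e : Fin d → ℝ, y = diagonal e * y0) : HasT y0 := by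
  obtain ⟨hYN, hYc, hYne, hYi⟩ := hY.prop
  have hX : ∀ y ∈ Y, y ∈ XX d c := fun y hy => hNX (hYN hy)
  have hdetne : ∀ y ∈ Y, y.det ≠ 0 := fun y hy => XX.det_ne (hX y hy)
  obtain ⟨W, hW, hWo, hy0W⟩ := mem_nhds_iff.1 (eventually_inf_principal.1 hloc)
  have hW' : ∀ y ∈ W, y ∈ Y → ∃ e : Fin d → ℝ, y = diagonal e * y0 := fun y h1 h2 => hW h1 h2
  -- orbits are dense
  have hdense : ∀ y ∈ Y, Y ⊆ closure (orb y) := by
    intro y hy
    have hsub : closure (orb y) ⊆ Y := by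
      apply closure_minimal _ hYc
      rintro _ ⟨a, ha, hprod, U, rfl⟩
      exact hYi a ha hprod U y hy
    apply hY.le_of_le ?_ hsub
    exact ⟨hsub.trans hYN, isClosed_closure, ⟨y, subset_closure (mem_orb y)⟩,
      inv_closure (inv_orb y)⟩
  obtain ⟨φ, U, w, hφ, hwdet, hlim⟩ := exists_returns hc (hdetne y0 hy0) (hX y0 hy0).2
  set y : ℕ → Matrix (Fin d) (Fin d) ℝ := fun n =>
    diagonal (av d (φ n)) * y0 * im (U n : Matrix (Fin d) (Fin d) ℤ) with hy
  have hyY : ∀ n, y n ∈ Y := fun n => hYi _ (fun i => av_pos _ i) (prod_av _) _ y0 hy0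
  have hwY : w ∈ Y := hYc.mem_of_tendsto hlim (Eventually.of_forall hyY)
  have hw0 : w.det ≠ 0 := hdetne w hwY
  obtain ⟨_, hW1, a', ha', hprod', U', rfl⟩ :=
    mem_closure_iff.1 (hdense w hwY hy0) W hWo hy0W
  have hev : ∀ᶠ n in atTop, diagonal a' * y n * im (U' : Matrix (Fin d) (Fin d) ℤ) ∈ W :=
    (((continuous_act a' (im (U' : Matrix (Fin d) (Fin d) ℤ))).tendsto w).comp hlim).eventually
      (hWo.mem_nhds hW1)
  have hev2 : ∀ᶠ n in atTop, ∃ e : Fin d → ℝ,
      diagonal a' * y n * im (U' : Matrix (Fin d) (Fin d) ℤ) = diagonal e * y0 := by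
    filter_upwards [hev] with n hn
    exact hW' _ hn (hYi a' ha' hprod' U' _ (hyY n))
  -- consecutive returns
  set E : ℕ → Matrix (Fin d) (Fin d) ℝ := fun n => y (n + 1) * (y n)⁻¹ - 1 with hE
  have hElim : Tendsto E atTop (𝓝 0) := by
    have h1 : Tendsto (fun n => (y n)⁻¹) atTop (𝓝 w⁻¹) :=
      (continuousAt_inv hw0).tendsto.comp hlim
    have h2 : Tendsto (fun n => y (n + 1)) atTop (𝓝 w) := hlim.comp (tendsto_add_atTop_nat 1)
    have h3 := (h2.mul h1).sub (tendsto_const_nhds (x := (1 : Matrix (Fin d) (Fin d) ℝ)))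
    rwa [Matrix.mul_nonsing_inv _ (isUnit_iff_ne_zero.2 hw0), sub_self] at h3
  have hsmall : ∀ᶠ n in atTop, ∀ i : Fin d, |E n i i| ≤ 1 / 4 := by
    rw [eventually_all]
    intro i
    have h1 : Tendsto (fun n => |E n i i|) atTop (𝓝 |(0 : Matrix (Fin d) (Fin d) ℝ) i i|) :=
      (((continuous_id.matrix_elem i i).tendsto (0 : Matrix (Fin d) (Fin d) ℝ)).comp hElim).abs
    rw [Matrix.zero_apply, abs_zero] at h1
    exact h1.eventually (ge_mem_nhds (by norm_num))
  obtain ⟨n, h1, ⟨e1, he1⟩, ⟨e2, he2⟩⟩ :=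
    (hsmall.and (hev2.and ((tendsto_add_atTop_nat 1).eventually hev2))).exists
  have he1ne : ∀ i, e1 i ≠ 0 := by
    have h2 : (diagonal e1 * y0).det ≠ 0 := by
      rw [← he1]
      exact hdetne _ (hYi a' ha' hprod' U' _ (hyY n))
    rw [Matrix.det_mul, Matrix.det_diagonal] at h2
    intro i
    exact Finset.prod_ne_zero_iff.1 (left_ne_zero_of_mul h2) i (Finset.mem_univ i)
  -- `y (n+1)` is a diagonal multiple of `y n`
  have hy1 : y (n + 1) = diagonal (fun i => e2 i / e1 i) * y n := by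
    have h2 : diagonal (fun i => e2 i / e1 i) * (diagonal e1 * y0) = diagonal e2 * y0 := by
      rw [← Matrix.mul_assoc, Matrix.diagonal_mul_diagonal]
      congr 2
      ext i
      exact div_mul_cancel₀ _ (he1ne i)
    rw [← he1, ← he2] at h2
    have h3 := unact (fun i => (ha' i).ne') U' (y (n + 1))
    have h4 := unact (fun i => (ha' i).ne') U' (y n)
    have hcomm : diagonal (fun i => (a' i)⁻¹) * diagonal (fun i => e2 i / e1 i)
        = diagonal (fun i => e2 i / e1 i) * diagonal (fun i => (a' i)⁻¹) := by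
      rw [Matrix.diagonal_mul_diagonal, Matrix.diagonal_mul_diagonal]
      congr 1
      ext i
      exact mul_comm _ _
    rw [← h2] at h3
    rw [← h3]
    conv_rhs => rw [← h4]
    rw [← Matrix.mul_assoc (diagonal (fun i => (a' i)⁻¹)) (diagonal (fun i => e2 i / e1 i)), hcomm]
    simp only [Matrix.mul_assoc]
  have hEii : ∀ i, |e2 i / e1 i - 1| ≤ 1 / 4 := by
    intro i
    have h2 : E n = diagonal (fun i => e2 i / e1 i) - 1 := by
      simp only [hE]
      rw [hy1, Matrix.mul_assoc, Matrix.mul_nonsing_inv _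
        (isUnit_iff_ne_zero.2 (hdetne _ (hyY n))), Matrix.mul_one]
    have h3 := h1 i
    rw [h2] at h3
    simpa using h3
  exact hasT_of_close (hφ (Nat.lt_succ_self n)) hEii hy1

end Pool.Agent.H89.CSD
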