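import Pool.Agent.H89.CSD.Dich

/-!
# The dichotomy: finitely many or uncountably many classes
-/

namespace Pool.Agent.H89.CSD

open Matrix Filter Topology

variable {d : ℕ}

/-- Baire category: if the members of a closed set of matrices of nonzero determinant give, up to
factors, only countably many functions then one of them is locally alone up to the diagonal
group. -/
theorem baire_local {Y : Set (Matrix (Fin d) (Fin d) ℝ)} (hYc : IsClosed Y) (hYne : Y.Nonempty)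
    (hYdet : ∀ y ∈ Y, y.det ≠ 0) {ι : Type} [Countable ι] (Q : ι → (Fin d → ℝ) → ℝ)
    (hQ : ∀ y ∈ Y, ∃ n, ∃ κ : ℝ, κ ≠ 0 ∧ ∀ x, P y x = κ * Q n x) :
    ∃ y0 ∈ Y, ∀ᶠ y in 𝓝 y0 ⊓ 𝓟 Y, ∃ e : Fin d → ℝ, y = diagonal e * y0 := by
  classical
  have hPne : ∀ y ∈ Y, ∃ x, P y x ≠ 0 := by
    intro y hy
    refine ⟨y⁻¹ *ᵥ (fun _ => 1), ?_⟩
    rw [P_eq, Matrix.mulVec_mulVec, Matrix.mul_nonsing_inv _ (isUnit_iff_ne_zero.2 (hYdet y hy)),
      Matrix.one_mulVec]
    simp
  let f : ι → Set Y := fun n =>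
    {y | (∃ x, Q n x ≠ 0) ∧ ∀ x x', P (y : Matrix (Fin d) (Fin d) ℝ) x * Q n x' =
      P (y : Matrix (Fin d) (Fin d) ℝ) x' * Q n x}
  have hfc : ∀ n, IsClosed (f n) := by
    intro n
    by_cases hn : ∃ x, Q n x ≠ 0
    · have : f n = ⋂ (x : Fin d → ℝ) (x' : Fin d → ℝ),
          {y : Y | P (y : Matrix (Fin d) (Fin d) ℝ) x * Q n x' =
            P (y : Matrix (Fin d) (Fin d) ℝ) x' * Q n x} := by
        ext y
        simp [f, hn]
      rw [this]
      refine isClosed_iInter fun x => isClosed_iInter fun x' => ?_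
      exact isClosed_eq (((continuous_P x).comp continuous_subtype_val).mul continuous_const)
        (((continuous_P x').comp continuous_subtype_val).mul continuous_const)
    · have : f n = ∅ := by
        ext y
        simp [f, hn]
      rw [this]
      exact isClosed_empty
  have hfU : ⋃ n, f n = Set.univ := by
    rw [Set.eq_univ_iff_forall]
    intro y
    obtain ⟨n, κ, hκ, h⟩ := hQ y y.2
    refine Set.mem_iUnion.2 ⟨n, ?_, fun x x' => ?_⟩
    · obtain ⟨x, hx⟩ := hPne y y.2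
      refine ⟨x, fun h0 => hx ?_⟩
      rw [h, h0, mul_zero]
    · rw [h, h]
      ring
  have : Nonempty Y := hYne.to_subtype
  have hB : BaireSpace Y := by
    have h1 : LocallyCompactSpace (Matrix (Fin d) (Fin d) ℝ) :=
      inferInstanceAs (LocallyCompactSpace (Fin d → Fin d → ℝ))
    have h2 : LocallyCompactSpace Y := hYc.isClosedEmbedding_subtypeVal.locallyCompactSpace
    have h3 : T2Space (Matrix (Fin d) (Fin d) ℝ) :=
      inferInstanceAs (T2Space (Fin d → Fin d → ℝ))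
    infer_instance
  obtain ⟨n, ⟨y0, hy0Y⟩, hy0⟩ := nonempty_interior_of_iUnion_of_closed hfc hfU
  refine ⟨y0, hy0Y, ?_⟩
  have hdet0 := hYdet y0 hy0Y
  have hunit : IsUnit y0.det := isUnit_iff_ne_zero.2 hdet0
  have h1 : f n ∈ 𝓝 (⟨y0, hy0Y⟩ : Y) := mem_interior_iff_mem_nhds.1 hy0
  have h2 : ∀ᶠ y in 𝓝 y0 ⊓ 𝓟 Y, ∃ h : y ∈ Y, (⟨y, h⟩ : Y) ∈ f n := by
    rw [nhds_subtype_eq_comap] at h1
    obtain ⟨W, hW, hWs⟩ := h1
    rw [eventually_inf_principal]
    filter_upwards [hW] with y hy hyY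
    exact ⟨hyY, hWs (show ((⟨y, hyY⟩ : Y) : Matrix (Fin d) (Fin d) ℝ) ∈ W from hy)⟩
  have h3 : ∀ᶠ y in 𝓝 y0, ∀ i : Fin d, (y * y0⁻¹) i i ≠ 0 := by
    rw [eventually_all]
    intro i
    have h4 : Continuous (fun y : Matrix (Fin d) (Fin d) ℝ => (y * y0⁻¹) i i) :=
      (continuous_id.mul continuous_const).matrix_elem i i
    have h5 := h4.tendsto y0
    rw [Matrix.mul_nonsing_inv _ hunit, Matrix.one_apply_eq] at h5
    exact h5.eventually_ne one_ne_zero
  obtain ⟨hQ0, hprop0⟩ := interior_subset hy0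
  filter_upwards [h2, h3.filter_mono inf_le_left] with y hy hyi
  obtain ⟨hyY, -, hprop⟩ := hy
  set M : Matrix (Fin d) (Fin d) ℝ := y * y0⁻¹ with hM
  have hMy : M * y0 = y := by
    rw [hM, Matrix.mul_assoc, Matrix.nonsing_inv_mul _ hunit, Matrix.mul_one]
  have hdiag : ∀ i j, i ≠ j → M i j = 0 := by
    apply diag_of_prod_zero _ hyi
    intro v j hv
    have h5 : y0 *ᵥ (y0⁻¹ *ᵥ v) = v := by
      rw [Matrix.mulVec_mulVec, Matrix.mul_nonsing_inv _ hunit, Matrix.one_mulVec]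
    have h6 : P y (y0⁻¹ *ᵥ v) = ∏ i, (M *ᵥ v) i := by
      rw [← hMy, P_mul, h5, P_eq]
    have h7 : P y0 (y0⁻¹ *ᵥ v) = 0 := by
      rw [P_eq, h5]
      exact Finset.prod_eq_zero (Finset.mem_univ j) hv
    rw [← h6]
    obtain ⟨x', hx'⟩ := hPne y0 hy0Y
    have h8 := hprop0 (y0⁻¹ *ᵥ v) x'
    simp only at h8
    rw [h7, zero_mul] at h8
    have h9 : Q n (y0⁻¹ *ᵥ v) = 0 := by
      rcases mul_eq_zero.1 h8.symm with h | h
      · exact absurd h hx'
      · exact h
    obtain ⟨x'', hx''⟩ := hQ0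
    have h10 := hprop (y0⁻¹ *ᵥ v) x''
    simp only at h10
    rw [h9, mul_zero] at h10
    rcases mul_eq_zero.1 h10 with h | h
    · exact h
    · exact absurd h hx''
  refine ⟨fun i => M i i, ?_⟩
  rw [← hMy]
  congr 1
  ext i j
  by_cases hij : i = j
  · subst hij
    simp
  · rw [hdiag i j hij, Matrix.diagonal_apply_ne _ hij]

end Pool.Agent.H89.CSD
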