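import Pool.Agent.H89.CSD.Return

/-!
# Integral forms with positive minimum have a large automorphism group
-/

namespace Pool.Agent.H89.CSD

open Matrix Filter Topology

variable {d : ℕ}

/-- The product of the forms as a polynomial. -/
noncomputable def Fp (g : Matrix (Fin d) (Fin d) ℝ) : MvPolynomial (Fin d) ℝ :=
  ∏ i : Fin d, ∑ j : Fin d, MvPolynomial.C (g i j) * MvPolynomial.X j

/-- A nonzero real multiple of the product has integer coefficients. -/
def IntForm (g : Matrix (Fin d) (Fin d) ℝ) : Prop :=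
  ∃ c : ℝ, c ≠ 0 ∧ ∀ m : Fin d →₀ ℕ, ∃ z : ℤ,
    MvPolynomial.coeff m (c • (∏ i : Fin d, ∑ j : Fin d,
      MvPolynomial.C (g i j) * MvPolynomial.X j : MvPolynomial (Fin d) ℝ)) = (z : ℝ)

theorem eval_Fp (g : Matrix (Fin d) (Fin d) ℝ) (x : Fin d → ℝ) :
    MvPolynomial.eval x (Fp g) = P g x := by
  simp [Fp, P]

theorem degreeOf_Fp (g : Matrix (Fin d) (Fin d) ℝ) (k : Fin d) :
    MvPolynomial.degreeOf k (Fp g) ≤ d := by
  unfold Fp
  refine (MvPolynomial.degreeOf_prod_le _ _ _).trans ?_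
  have : ∀ i ∈ (Finset.univ : Finset (Fin d)), MvPolynomial.degreeOf k
      (∑ j : Fin d, MvPolynomial.C (g i j) * MvPolynomial.X j : MvPolynomial (Fin d) ℝ) ≤ 1 := by
    intro i _
    refine (MvPolynomial.degreeOf_sum_le _ _ _).trans ?_
    refine Finset.sup_le fun j _ => ?_
    refine (MvPolynomial.degreeOf_C_mul_le _ _ _).trans ?_
    rw [MvPolynomial.degreeOf_X]
    split_ifs <;> simp
  refine (Finset.sum_le_card_nsmul _ _ _ this).trans ?_
  simp

/-- A product of linear forms is determined by its values at finitely many integer points. -/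
theorem P_ext {g h : Matrix (Fin d) (Fin d) ℝ}
    (hgh : ∀ x : Fin d → ℤ, (∀ i, 0 ≤ x i ∧ x i ≤ d) → P g (ic x) = P h (ic x))
    (x : Fin d → ℝ) : P g x = P h x := by
  classical
  have h0 : Fp g - Fp h = 0 := by
    apply MvPolynomial.eq_zero_of_eval_zero_at_prod_finset (Fp g - Fp h)
      (fun _ => (Finset.range (d + 1)).image (fun n : ℕ => (n : ℝ)))
    · intro i
      rw [Finset.card_image_of_injective _ Nat.cast_injective, Finset.card_range]
      have := MvPolynomial.degreeOf_sub_le i (Fp g) (Fp h)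
      have h1 := degreeOf_Fp g i
      have h2 := degreeOf_Fp h i
      have h3 := this.trans (max_le h1 h2)
      omega
    · intro v hv
      simp only [Finset.mem_image, Finset.mem_range] at hv
      choose n hn hn' using hv
      have hv' : v = ic (fun i => (n i : ℤ)) := by
        ext i
        simp [ic, hn' i]
      rw [map_sub, eval_Fp, eval_Fp, hv', hgh, sub_self]
      intro i
      have := hn i
      constructor
      · positivity
      · exact_mod_cast Nat.lt_succ_iff.1 this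
  rw [← eval_Fp, ← eval_Fp, sub_eq_zero.1 h0]

/-- The set of integer points in the box. -/
theorem finite_box : {x : Fin d → ℤ | ∀ i, 0 ≤ x i ∧ x i ≤ d}.Finite := by
  have : {x : Fin d → ℤ | ∀ i, 0 ≤ x i ∧ x i ≤ d} = {x | ∀ i, x i ∈ Set.Icc (0 : ℤ) d} := rfl
  rw [this]
  exact Set.Finite.pi' fun _ => Set.finite_Icc _ _

theorem IntForm.values {g : Matrix (Fin d) (Fin d) ℝ} (h : IntForm g) :
    ∃ c : ℝ, c ≠ 0 ∧ ∀ x : Fin d → ℤ, ∃ z : ℤ, c * P g (ic x) = z := by
  obtain ⟨c, hc, h⟩ := h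
  refine ⟨c, hc, fun x => ?_⟩
  have h1 : c • Fp g ∈ Set.range (MvPolynomial.map (σ := Fin d) (Int.castRingHom ℝ)) := by
    rw [MvPolynomial.mem_range_map_iff_coeffs_subset]
    intro r hr
    rw [Finset.mem_coe, MvPolynomial.mem_coeffs_iff] at hr
    obtain ⟨m, -, hm⟩ := hr
    obtain ⟨z, hz⟩ := h m
    exact ⟨z, by rw [hm]; simpa [Fp] using hz.symm⟩
  obtain ⟨G, hG⟩ := h1
  refine ⟨MvPolynomial.eval x G, ?_⟩
  have h2 : MvPolynomial.eval (ic x) (c • Fp g) = c * P g (ic x) := by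
    rw [MvPolynomial.smul_eval, eval_Fp]
  rw [← h2, ← hG, MvPolynomial.eval_map]
  exact (MvPolynomial.eval₂_comp (Int.castRingHom ℝ) x G).symm

theorem diag_of_prod_eq {M : Matrix (Fin d) (Fin d) ℝ}
    (h : ∀ v : Fin d → ℝ, ∏ i, (M *ᵥ v) i = ∏ i, v i) (hM : ∀ i, M i i ≠ 0) :
    ∀ i j, i ≠ j → M i j = 0 := by
  classical
  intro j k0 hjk
  by_contra hne
  set p : Fin d → Polynomial ℝ := fun i =>
    ∑ k ∈ Finset.univ.erase j, Polynomial.C (M i k) * Polynomial.X ^ (k : ℕ) with hp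
  have hcoef : ∀ i k, k ≠ j → (p i).coeff (k : ℕ) = M i k := by
    intro i k hk
    simp only [hp, Polynomial.finsetSum_coeff, Polynomial.coeff_C_mul, Polynomial.coeff_X_pow]
    rw [Finset.sum_eq_single k]
    · simp
    · intro b _ hb
      have : (k : ℕ) ≠ (b : ℕ) := fun h => hb (Fin.ext h.symm)
      simp [this]
    · intro h
      exact absurd (Finset.mem_erase.2 ⟨hk, Finset.mem_univ k⟩) h
  have hp0 : ∀ i, p i ≠ 0 := by
    intro i h0
    by_cases hij : i = j
    · subst hij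
      have := hcoef i k0 (Ne.symm hjk)
      rw [h0, Polynomial.coeff_zero] at this
      exact hne this.symm
    · have := hcoef i i hij
      rw [h0, Polynomial.coeff_zero] at this
      exact hM i this.symm
  have hprod : ∏ i, p i ≠ 0 := Finset.prod_ne_zero_iff.2 fun i _ => hp0 i
  obtain ⟨t, ht⟩ : ∃ t : ℝ, (∏ i, p i).eval t ≠ 0 := by
    by_contra hcon
    push Not at hcon
    exact hprod (Polynomial.funext fun t => by rw [hcon t, Polynomial.eval_zero])
  set v : Fin d → ℝ := fun k => if k = j then 0 else t ^ (k : ℕ) with hv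
  have h1 := h v
  have h2 : ∏ i, v i = 0 := Finset.prod_eq_zero (Finset.mem_univ j) (by simp [hv])
  rw [h2] at h1
  apply ht
  rw [Polynomial.eval_prod, ← h1]
  apply Finset.prod_congr rfl
  intro i _
  simp only [hp, Polynomial.eval_finsetSum, Polynomial.eval_mul, Polynomial.eval_C,
    Polynomial.eval_pow, Polynomial.eval_X, Matrix.mulVec, dotProduct]
  rw [← Finset.sum_erase (Finset.univ) (a := j) (by simp [hv])]
  apply Finset.sum_congr rfl
  intro k hk
  simp [hv, Finset.ne_of_mem_erase hk]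

/-- A convergent sequence of integers is eventually constant. -/
theorem eventually_eq_of_int {u : ℕ → ℝ} {L : ℝ} (hu : Tendsto u atTop (𝓝 L))
    (hz : ∀ n, ∃ z : ℤ, u n = z) : ∀ᶠ n in atTop, u n = L := by
  have hL : ∃ z : ℤ, L = z := by
    have : L ∈ Set.range ((↑) : ℤ → ℝ) :=
      Int.isClosedEmbedding_coe_real.isClosed_range.mem_of_tendsto hu
        (Eventually.of_forall fun n => by
          obtain ⟨z, hz⟩ := hz n
          exact ⟨z, hz.symm⟩)
    obtain ⟨z, hz⟩ := this
    exact ⟨z, hz.symm⟩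
  obtain ⟨l, rfl⟩ := hL
  have h1 : ∀ᶠ n in atTop, |u n - l| < 1 := by
    have h2 : Tendsto (fun n => |u n - l|) atTop (𝓝 |(l : ℝ) - l|) := (hu.sub_const _).abs
    rw [sub_self, abs_zero] at h2
    exact h2.eventually (gt_mem_nhds one_pos)
  filter_upwards [h1] with n hn
  obtain ⟨z, hz⟩ := hz n
  rw [hz] at hn ⊢
  have : |z - l| < 1 := by exact_mod_cast hn
  have := Int.abs_lt_one_iff.1 this
  have h3 : z = l := by omega
  rw [h3]

/-- If a sequence of products takes integer values, up to a constant, and converges, then it is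
eventually constant. -/
theorem eventually_P_eq {κ : ℝ} (hκ : κ ≠ 0) {y : ℕ → Matrix (Fin d) (Fin d) ℝ}
    {w : Matrix (Fin d) (Fin d) ℝ} (hlim : Tendsto y atTop (𝓝 w))
    (hz : ∀ n (x : Fin d → ℤ), ∃ z : ℤ, κ * P (y n) (ic x) = z) :
    ∀ᶠ n in atTop, ∀ x : Fin d → ℝ, P (y n) x = P w x := by
  have h1 : ∀ x : Fin d → ℤ, ∀ᶠ n in atTop, P (y n) (ic x) = P w (ic x) := by
    intro x
    have h2 : Tendsto (fun n => κ * P (y n) (ic x)) atTop (𝓝 (κ * P w (ic x))) :=
      (((continuous_P (ic x)).tendsto w).comp hlim).const_mul κ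
    filter_upwards [eventually_eq_of_int h2 (fun n => hz n x)] with n hn
    exact mul_left_cancel₀ hκ hn
  have h3 : ∀ᶠ n in atTop, ∀ x ∈ {x : Fin d → ℤ | ∀ i, 0 ≤ x i ∧ x i ≤ d},
      P (y n) (ic x) = P w (ic x) := by
    rw [Filter.eventually_all_finite finite_box]
    intro x _
    exact h1 x
  filter_upwards [h3] with n hn x
  exact P_ext (fun x hx => hn x hx) x

theorem hasT_of_intForm {c : ℝ} (hc : 0 < c) {g : Matrix (Fin d) (Fin d) ℝ} (hg : g.det ≠ 0)
    (hp : Pos c g) (hi : IntForm g) : HasT g := by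
  obtain ⟨κ, hκ, hval⟩ := hi.values
  obtain ⟨φ, U, w0, hφ, hw0, hlim⟩ := exists_returns hc hg hp
  set y : ℕ → Matrix (Fin d) (Fin d) ℝ := fun n =>
    diagonal (av d (φ n)) * g * im (U n : Matrix (Fin d) (Fin d) ℤ) with hy
  have hydet : ∀ n, |(y n).det| = |g.det| := by
    intro n
    simp only [hy]
    rw [Matrix.det_mul, Matrix.det_mul, Matrix.det_diagonal, prod_av, one_mul, abs_mul,
      abs_det_im_unit, mul_one]
  have hydet0 : ∀ n, (y n).det ≠ 0 := by
    intro n h
    have := hydet n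
    rw [h, abs_zero] at this
    exact hg (abs_eq_zero.1 this.symm)
  have hw0' : w0.det ≠ 0 := by
    intro h
    rw [h, abs_zero] at hw0
    exact hg (abs_eq_zero.1 hw0.symm)
  have hyval : ∀ n (x : Fin d → ℤ), ∃ z : ℤ, κ * P (y n) (ic x) = z := by
    intro n x
    simp only [hy]
    rw [P_mul_im, P_diag_mul, prod_av, one_mul]
    exact hval _
  have hev := eventually_P_eq hκ hlim hyval
  set E : ℕ → Matrix (Fin d) (Fin d) ℝ := fun n => y (n + 1) * (y n)⁻¹ - 1 with hE
  have hEy : ∀ n, (1 + E n) * y n = y (n + 1) := by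
    intro n
    simp only [hE]
    rw [add_sub_cancel, Matrix.mul_assoc, Matrix.nonsing_inv_mul _
      (isUnit_iff_ne_zero.2 (hydet0 n)), Matrix.mul_one]
  have hElim : Tendsto E atTop (𝓝 0) := by
    have h1 : Tendsto (fun n => (y n)⁻¹) atTop (𝓝 w0⁻¹) :=
      (continuousAt_inv hw0').tendsto.comp hlim
    have h2 : Tendsto (fun n => y (n + 1)) atTop (𝓝 w0) := hlim.comp (tendsto_add_atTop_nat 1)
    have h3 := (h2.mul h1).sub (tendsto_const_nhds (x := (1 : Matrix (Fin d) (Fin d) ℝ)))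
    rwa [Matrix.mul_nonsing_inv _ (isUnit_iff_ne_zero.2 hw0'), sub_self] at h3
  have hsmall : ∀ᶠ n in atTop, ∀ i : Fin d, |E n i i| ≤ 1 / 4 := by
    rw [eventually_all]
    intro i
    have h1 : Tendsto (fun n => |E n i i|) atTop (𝓝 |(0 : Matrix (Fin d) (Fin d) ℝ) i i|) :=
      (((continuous_id.matrix_elem i i).tendsto (0 : Matrix (Fin d) (Fin d) ℝ)).comp hElim).abs
    rw [Matrix.zero_apply, abs_zero] at h1
    exact h1.eventually (ge_mem_nhds (by norm_num))
  obtain ⟨n, h1, h2, h3⟩ := (hsmall.and (hev.and ((tendsto_add_atTop_nat 1).eventually hev))).exists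
  have h4 : ∀ v : Fin d → ℝ, ∏ i, ((1 + E n) *ᵥ v) i = ∏ i, v i := by
    intro v
    have h5 : (y n) *ᵥ ((y n)⁻¹ *ᵥ v) = v := by
      rw [Matrix.mulVec_mulVec, Matrix.mul_nonsing_inv _ (isUnit_iff_ne_zero.2 (hydet0 n)),
        Matrix.one_mulVec]
    have h6 : P ((1 + E n) * y n) ((y n)⁻¹ *ᵥ v) = P (y n) ((y n)⁻¹ *ᵥ v) := by
      rw [hEy, h3, h2]
    rw [P_mul, h5, P_eq, P_eq, h5] at h6
    exact h6
  have h7 := diag_of_prod_eq h4 (fun i => by
    have := abs_le.1 (h1 i)
    simp only [Matrix.add_apply, Matrix.one_apply_eq]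
    intro h
    linarith [this.1])
  have hdiag : 1 + E n = diagonal (fun i => 1 + E n i i) := by
    ext i j
    by_cases hij : i = j
    · subst hij
      simp
    · rw [h7 i j hij, Matrix.diagonal_apply_ne _ hij]
  have h8 := hEy n
  rw [hdiag] at h8
  refine hasT_of_close (hφ (Nat.lt_succ_self n)) (e := fun i => 1 + E n i i) ?_
    (U := U n) (U' := U (n + 1)) h8.symm
  intro i
  rw [add_sub_cancel_left]
  exact h1 i

end Pool.Agent.H89.CSD
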