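import Pool.Agent.H89.CSD.Basic

/-!
# Mahler compactness: bounded bases
-/

namespace Pool.Agent.H89.CSD

open Matrix

variable {d : ℕ}

theorem unit_of_congr {T H : Matrix (Fin d) (Fin d) ℤ} (hdet : |T.det| = |H.det|)
    (hH : H.det ≠ 0) (hcong : ∀ i j, H.det ∣ T i j - H i j) :
    ∃ U : (Matrix (Fin d) (Fin d) ℤ)ˣ, T = (U : Matrix (Fin d) (Fin d) ℤ) * H := by
  choose Q hQ using hcong
  have hTH : T = H + H.det • (Matrix.of Q) := by
    ext i j
    have := hQ i j
    simp only [Matrix.add_apply, Matrix.smul_apply, Matrix.of_apply, smul_eq_mul]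
    linarith
  set V : Matrix (Fin d) (Fin d) ℤ := 1 + Matrix.of Q * H.adjugate with hV
  have h1 : T * H.adjugate = H.det • V := by
    conv_lhs => rw [hTH]
    rw [Matrix.add_mul, Matrix.mul_adjugate, Matrix.smul_mul, hV, smul_add]
  have h2 : H.det • T = H.det • (V * H) := by
    calc H.det • T = T * (H.det • (1 : Matrix (Fin d) (Fin d) ℤ)) := by
          rw [Matrix.mul_smul, Matrix.mul_one]
      _ = T * (H.adjugate * H) := by rw [Matrix.adjugate_mul]
      _ = H.det • (V * H) := by rw [← Matrix.mul_assoc, h1, Matrix.smul_mul]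
  have h3 : T = V * H := by
    ext i j
    have := congrFun (congrFun h2 i) j
    simp only [Matrix.smul_apply, smul_eq_mul] at this
    exact mul_left_cancel₀ hH this
  have h4 : |V.det| = 1 := by
    have h5 : |T.det| = |V.det| * |H.det| := by rw [h3, Matrix.det_mul, abs_mul]
    rw [hdet] at h5
    have h6 : |H.det| ≠ 0 := by simpa using hH
    have h7 : 1 * |H.det| = |V.det| * |H.det| := by rw [one_mul]; exact h5
    exact (mul_right_cancel₀ h6 h7).symm
  have h8 : IsUnit V := by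
    rw [Matrix.isUnit_iff_isUnit_det, Int.isUnit_iff_abs_eq]
    exact h4
  exact ⟨h8.unit, h3⟩

theorem det_unit_ne (U : (Matrix (Fin d) (Fin d) ℤ)ˣ) :
    (U : Matrix (Fin d) (Fin d) ℤ).det ≠ 0 := by
  have := (Matrix.isUnit_iff_isUnit_det _).1 U.isUnit
  exact this.ne_zero

theorem abs_det_unit (U : (Matrix (Fin d) (Fin d) ℤ)ˣ) :
    |(U : Matrix (Fin d) (Fin d) ℤ).det| = 1 := by
  have := (Matrix.isUnit_iff_isUnit_det _).1 U.isUnit
  rwa [Int.isUnit_iff_abs_eq] at this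

theorem abs_det_im_unit (U : (Matrix (Fin d) (Fin d) ℤ)ˣ) :
    |(im (U : Matrix (Fin d) (Fin d) ℤ)).det| = 1 := by
  rw [det_im, ← Int.cast_abs, abs_det_unit, Int.cast_one]

/-- Mahler compactness. -/
theorem mahler (d : ℕ) (ρ δ D : ℝ) (hρ : 0 < ρ) (hδ : 0 < δ) (hD : 0 ≤ D) :
    ∃ R : ℝ, 0 ≤ R ∧ ∀ g : Matrix (Fin d) (Fin d) ℝ, δ ≤ |g.det| → |g.det| ≤ D →
      (∀ x : Fin d → ℤ, x ≠ 0 → ∃ i, ρ ≤ |(g *ᵥ ic x) i|) →
      ∃ U : (Matrix (Fin d) (Fin d) ℤ)ˣ,
        ∀ i j, |(g * im (U : Matrix (Fin d) (Fin d) ℤ)) i j| ≤ R := by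
  classical
  obtain ⟨R0, hR0, hsb⟩ := short_basis d ρ D hρ hD
  set B : ℕ := ⌈(d.factorial : ℝ) * R0 ^ d / δ⌉₊ with hB
  have hBf : (B.factorial : ℤ) ≠ 0 := by exact_mod_cast B.factorial_ne_zero
  haveI : NeZero B.factorial := ⟨B.factorial_ne_zero⟩
  let Cl := Fin (B + 1) × Matrix (Fin d) (Fin d) (ZMod B.factorial)
  let Good : Cl → Matrix (Fin d) (Fin d) ℤ → Prop := fun c T =>
    T.det ≠ 0 ∧ T.det.natAbs = c.1 ∧ T.map (Int.cast : ℤ → ZMod B.factorial) = c.2
  let rep : Cl → Matrix (Fin d) (Fin d) ℤ := fun c => if h : ∃ T, Good c T then h.choose else 1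
  obtain ⟨C, hC⟩ : ∃ C : ℝ, ∀ (c : Cl) (i j : Fin d), |((im (rep c))⁻¹) i j| ≤ C := by
    have := Set.finite_range (fun q : Cl × Fin d × Fin d => |((im (rep q.1))⁻¹) q.2.1 q.2.2|)
    obtain ⟨C, hC⟩ := this.bddAbove
    exact ⟨C, fun c i j => hC ⟨(c, i, j), rfl⟩⟩
  refine ⟨d * (R0 * |C|), by positivity, fun g hg1 hg2 hsh => ?_⟩
  have hg0 : g.det ≠ 0 := by
    intro h
    rw [h, abs_zero] at hg1
    linarith
  obtain ⟨T, hT0, hT⟩ := hsb g hg0 hg2 hsh
  have hdetle : |(g * im T).det| ≤ (d.factorial : ℝ) * R0 ^ d := by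
    have := Matrix.det_le (A := g * im T) (abv := (AbsoluteValue.abs : AbsoluteValue ℝ ℝ)) (x := R0)
      (fun i j => hT i j)
    simpa [nsmul_eq_mul] using this
  have hTB : T.det.natAbs ≤ B := by
    have h1 : |g.det| * |(T.det : ℝ)| ≤ (d.factorial : ℝ) * R0 ^ d := by
      rwa [Matrix.det_mul, det_im, abs_mul] at hdetle
    have h2 : |(T.det : ℝ)| ≤ (d.factorial : ℝ) * R0 ^ d / δ := by
      rw [le_div_iff₀ hδ]
      nlinarith [abs_nonneg (T.det : ℝ)]
    have h3 : (T.det.natAbs : ℝ) = |(T.det : ℝ)| := by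
      rw [Nat.cast_natAbs, Int.cast_abs]
    have h4 : (T.det.natAbs : ℝ) ≤ (B : ℝ) := by
      rw [h3]
      exact h2.trans (Nat.le_ceil _)
    exact_mod_cast h4
  let c : Cl := (⟨T.det.natAbs, by omega⟩, T.map (Int.cast : ℤ → ZMod B.factorial))
  have hex : ∃ T', Good c T' := ⟨T, hT0, rfl, rfl⟩
  have hrep : Good c (rep c) := by
    have : rep c = hex.choose := dif_pos hex
    rw [this]
    exact hex.choose_spec
  obtain ⟨hH0, hHn, hHm⟩ := hrep
  obtain ⟨U, hU⟩ : ∃ U : (Matrix (Fin d) (Fin d) ℤ)ˣ,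
      T = (U : Matrix (Fin d) (Fin d) ℤ) * rep c := by
    apply unit_of_congr _ hH0
    · intro i j
      have h1 : ((T i j : ℤ) : ZMod B.factorial) = ((rep c i j : ℤ) : ZMod B.factorial) := by
        have := congrFun (congrFun hHm i) j
        simp only [Matrix.map_apply] at this
        exact this.symm
      have h2 : (B.factorial : ℤ) ∣ T i j - rep c i j :=
        (ZMod.intCast_eq_intCast_iff_dvd_sub _ _ _).1 h1.symm
      refine dvd_trans ?_ h2
      rw [← Int.natAbs_dvd]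
      have h3 : (rep c).det.natAbs ∣ B.factorial := by
        rw [hHn]
        exact Nat.dvd_factorial (Nat.pos_of_ne_zero (by
          change T.det.natAbs ≠ 0
          simpa using hT0)) hTB
      exact_mod_cast h3
    · rw [← Int.natCast_natAbs, ← Int.natCast_natAbs]
      exact_mod_cast hHn.symm
  refine ⟨U, fun i j => ?_⟩
  have hHdet : IsUnit (im (rep c)).det := by
    rw [det_im]
    exact isUnit_iff_ne_zero.2 (by exact_mod_cast hH0)
  have h5 : g * im (U : Matrix (Fin d) (Fin d) ℤ) = g * im T * (im (rep c))⁻¹ := by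
    rw [hU, im_mul, ← Matrix.mul_assoc, Matrix.mul_nonsing_inv_cancel_right _ _ hHdet]
  rw [h5, Matrix.mul_apply]
  refine (Finset.abs_sum_le_sum_abs _ _).trans ?_
  have : ∀ k ∈ (Finset.univ : Finset (Fin d)),
      |(g * im T) i k * ((im (rep c))⁻¹) k j| ≤ R0 * |C| := by
    intro k _
    rw [abs_mul]
    exact mul_le_mul (hT i k) ((hC c k j).trans (le_abs_self _)) (abs_nonneg _) hR0
  refine (Finset.sum_le_card_nsmul _ _ _ this).trans ?_
  rw [nsmul_eq_mul]
  simp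

end Pool.Agent.H89.CSD
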